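import Mathlib

/-! Enumeration reducibility: total, almost total and graph-cototal enumeration degrees. -/

namespace Helper82Enum

/-- Enumeration reducibility. A finite subset of the naturals is given by a list of its
elements (lists of naturals carry the standard computable numbering of Mathlib), and the
enumeration operator is a recursively enumerable set `W` of pairs (number, finite set). -/
def EnumRed (A B : Set ℕ) : Prop :=
  ∃ W : Set (ℕ × List ℕ), REPred (fun p : ℕ × List ℕ => p ∈ W) ∧
    ∀ n, n ∈ A ↔ ∃ l : List ℕ, (n, l) ∈ W ∧ ∀ x, x ∈ l → x ∈ B

/-- `A` and `B` have the same enumeration degree. -/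
def EnumEquiv (A B : Set ℕ) : Prop := EnumRed A B ∧ EnumRed B A

/-- The join of two sets: `A` on the even numbers and `B` on the odd numbers. -/
def join (A B : Set ℕ) : Set ℕ :=
  {n | (n % 2 = 0 ∧ n / 2 ∈ A) ∨ (n % 2 = 1 ∧ n / 2 ∈ B)}

/-- A set is total if its complement is enumeration reducible to it. -/
def IsTotalSet (A : Set ℕ) : Prop := EnumRed Aᶜ A

/-- The enumeration degree of `A` is total: it contains a total set. -/
def HasTotalDegree (A : Set ℕ) : Prop := ∃ T : Set ℕ, IsTotalSet T ∧ EnumEquiv T A

/-- The enumeration degree of `A` is almost total: for every total degree `b`, either `b` is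
below the degree of `A`, or the join of `b` with the degree of `A` is total. -/
def AlmostTotal (A : Set ℕ) : Prop :=
  ∀ B : Set ℕ, HasTotalDegree B → EnumRed B A ∨ HasTotalDegree (join A B)

/-- The complement of the graph of `f`, under the standard pairing of naturals. -/
def graphCompl (f : ℕ → ℕ) : Set ℕ := {n | f n.unpair.1 ≠ n.unpair.2}

/-- The enumeration degree of `A` is graph-cototal: it contains the complement of the graph
of a total function. -/
def GraphCototal (A : Set ℕ) : Prop := ∃ f : ℕ → ℕ, EnumEquiv (graphCompl f) A

end Helper82Enum
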