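import Pool.Agent.Helper82_Enum.Chain
import Pool.Agent.Helper82_Enum.Defs

/-! Basic facts on enumeration reducibility. -/

namespace Helper82Enum

open Encodable
open Nat.Partrec (Code)

variable {α β γ : Type*} [Primcodable α] [Primcodable β] [Primcodable γ]

theorem exists_code_of_re {p : β → Prop} (hp : REPred p) :
    ∃ c : Code, ∀ b, (c.eval (encode b)).Dom ↔ p b := by
  obtain ⟨c, hc⟩ := Code.exists_code.1 hp
  refine ⟨c, fun b => ?_⟩
  rw [hc]
  simp only [encodek, Part.coe_some, Part.bind_some, Part.map_Dom]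
  exact ⟨fun h => h.1, fun h => ⟨h, trivial⟩⟩

theorem enumRed_iff_ho {A B : Set ℕ} : EnumRed A B ↔ ∃ p : ℕ → List ℕ → Prop,
    (REPred fun x : ℕ × List ℕ => p x.1 x.2) ∧ ∀ n, n ∈ A ↔ Ho (p n) B := by
  constructor
  · rintro ⟨W, hW, h⟩
    refine ⟨fun n l => (n, l) ∈ W, hW, fun n => ?_⟩
    rw [h n]
    constructor
    · rintro ⟨l, h1, h2⟩
      exact ⟨l, h2, h1⟩
    · rintro ⟨l, h1, h2⟩
      exact ⟨l, h2, h1⟩
  · rintro ⟨p, hp, h⟩
    refine ⟨{x | p x.1 x.2}, hp, fun n => ?_⟩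
    rw [h n]
    constructor
    · rintro ⟨l, h1, h2⟩
      exact ⟨l, h2, h1⟩
    · rintro ⟨l, h1, h2⟩
      exact ⟨l, h2, h1⟩

theorem enumRed_code {A B : Set ℕ} (h : EnumRed A B) : ∃ c : Code,
    ∀ n, n ∈ A ↔ ∃ l : List ℕ, (c.eval (encode (n, l))).Dom ∧ ∀ x, x ∈ l → x ∈ B := by
  obtain ⟨W, hW, h⟩ := h
  obtain ⟨c, hc⟩ := exists_code_of_re hW
  refine ⟨c, fun n => ?_⟩
  rw [h n]
  constructor
  · rintro ⟨l, h1, h2⟩
    exact ⟨l, (hc (n, l)).2 h1, h2⟩
  · rintro ⟨l, h1, h2⟩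
    exact ⟨l, (hc (n, l)).1 h1, h2⟩

theorem re_mem_comp {f : α → ℕ} {g : α → List ℕ} (hf : Computable f) (hg : Computable g) :
    REPred fun a => f a ∈ g a :=
  re_comp re_mem (g := fun a => (f a, g a)) (hf.pair hg)

theorem ho_mem (n : ℕ) (A : Set ℕ) : Ho (fun l => n ∈ l) A ↔ n ∈ A := by
  constructor
  · rintro ⟨l, h1, h2⟩
    exact h1 n h2
  · intro h
    exact ⟨[n], by simpa using h, by simp⟩

theorem enumRed_of_map {A B : Set ℕ} {f : ℕ → ℕ} (hf : Computable f)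
    (h : ∀ n, n ∈ A ↔ f n ∈ B) : EnumRed A B := by
  refine enumRed_iff_ho.2 ⟨fun n l => f n ∈ l, ?_, fun n => ?_⟩
  · exact re_mem_comp (f := fun x : ℕ × List ℕ => f x.1) (hf.comp Computable.fst) Computable.snd
  · rw [h n, ho_mem]

theorem EnumRed.refl (A : Set ℕ) : EnumRed A A :=
  enumRed_of_map Computable.id fun _ => Iff.rfl

theorem EnumRed.trans {A B C : Set ℕ} (h1 : EnumRed A B) (h2 : EnumRed B C) : EnumRed A C := by
  obtain ⟨p, hp, h⟩ := enumRed_iff_ho.1 h1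
  obtain ⟨q, hq, h'⟩ := enumRed_iff_ho.1 h2
  refine enumRed_iff_ho.2 ⟨fun n l' => ∃ l : List ℕ, p n l ∧ ∀ x, x ∈ l →
    ∃ m : List ℕ, q x m ∧ ∀ y, y ∈ m → y ∈ l', ?_, fun n => ?_⟩
  · refine re_ex (p := fun y : (ℕ × List ℕ) × List ℕ => p y.1.1 y.2 ∧ ∀ x, x ∈ y.2 →
      ∃ m : List ℕ, q x m ∧ ∀ z, z ∈ m → z ∈ y.1.2) ?_
    refine re_and ?_ ?_
    · exact re_comp hp (g := fun y : (ℕ × List ℕ) × List ℕ => (y.1.1, y.2))
        ((Computable.fst.comp Computable.fst).pair Computable.snd)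
    · refine re_list_all (p := fun z : ((ℕ × List ℕ) × List ℕ) × ℕ =>
        ∃ m : List ℕ, q z.2 m ∧ ∀ w, w ∈ m → w ∈ z.1.1.2) ?_
        (g := fun y : (ℕ × List ℕ) × List ℕ => y.2) Computable.snd
      refine re_ex (p := fun u : (((ℕ × List ℕ) × List ℕ) × ℕ) × List ℕ =>
        q u.1.2 u.2 ∧ ∀ w, w ∈ u.2 → w ∈ u.1.1.1.2) ?_
      refine re_and ?_ ?_
      · exact re_comp hq (g := fun u : (((ℕ × List ℕ) × List ℕ) × ℕ) × List ℕ => (u.1.2, u.2))
          ((Computable.snd.comp Computable.fst).pair Computable.snd)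
      · refine re_list_all (p := fun v : ((((ℕ × List ℕ) × List ℕ) × ℕ) × List ℕ) × ℕ =>
          v.2 ∈ v.1.1.1.1.2) ?_
          (g := fun u : (((ℕ × List ℕ) × List ℕ) × ℕ) × List ℕ => u.2) Computable.snd
        exact re_mem_comp (f := fun v : ((((ℕ × List ℕ) × List ℕ) × ℕ) × List ℕ) × ℕ => v.2)
          (g := fun v : ((((ℕ × List ℕ) × List ℕ) × ℕ) × List ℕ) × ℕ => v.1.1.1.1.2)
          Computable.snd
          (Computable.snd.comp (Computable.fst.comp (Computable.fst.comp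
            (Computable.fst.comp Computable.fst))))
  · rw [h n, ho_ex]
    constructor
    · rintro ⟨l, h1, h2⟩
      refine ⟨l, ?_⟩
      rw [ho_const_and]
      refine ⟨h2, ?_⟩
      rw [ho_list]
      · intro x hx
        rw [ho_ex]
        obtain ⟨m, hm1, hm2⟩ := (h' x).1 (h1 x hx)
        exact ⟨m, m, hm1, hm2, fun y hy => hy⟩
      · intro j
        refine mono_ex fun b => ?_
        rintro l l' hl ⟨h3, h4⟩
        exact ⟨h3, fun y hy => hl y (h4 y hy)⟩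
    · rintro ⟨l, hl⟩
      rw [ho_const_and] at hl
      obtain ⟨h2, l', h3, h4⟩ := hl
      refine ⟨l, fun x hx => ?_, h2⟩
      obtain ⟨m, hm1, hm2⟩ := h4 x hx
      exact (h' x).2 ⟨m, fun y hy => h3 y (hm2 y hy), hm1⟩

theorem EnumEquiv.refl (A : Set ℕ) : EnumEquiv A A := ⟨EnumRed.refl A, EnumRed.refl A⟩

theorem enumRed_join_left (A B : Set ℕ) : EnumRed A (join A B) := by
  refine enumRed_of_map (f := fun n => 2 * n)
    (Primrec.nat_mul.comp (Primrec.const 2) Primrec.id).to_comp fun n => ?_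
  unfold join
  rw [Set.mem_setOf_eq]
  have h1 : 2 * n % 2 = 0 := by omega
  have h2 : 2 * n / 2 = n := by omega
  rw [h1, h2]
  simp

theorem enumRed_join_right (A B : Set ℕ) : EnumRed B (join A B) := by
  refine enumRed_of_map (f := fun n => 2 * n + 1)
    (Primrec.succ.comp (Primrec.nat_mul.comp (Primrec.const 2) Primrec.id)).to_comp fun n => ?_
  unfold join
  rw [Set.mem_setOf_eq]
  have h1 : (2 * n + 1) % 2 = 1 := by omega
  have h2 : (2 * n + 1) / 2 = n := by omega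
  rw [h1, h2]
  simp

theorem enumRed_join {A B C : Set ℕ} (h1 : EnumRed A C) (h2 : EnumRed B C) :
    EnumRed (join A B) C := by
  obtain ⟨p, hp, h⟩ := enumRed_iff_ho.1 h1
  obtain ⟨q, hq, h'⟩ := enumRed_iff_ho.1 h2
  refine enumRed_iff_ho.2 ⟨fun n l => (n % 2 = 0 ∧ p (n / 2) l) ∨ (n % 2 = 1 ∧ q (n / 2) l),
    ?_, fun n => ?_⟩
  · have hdiv : Computable fun x : ℕ × List ℕ => (x.1 / 2, x.2) :=
      (Primrec.nat_div.comp Primrec.fst (Primrec.const 2)).to_comp.pair Computable.snd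
    refine re_or (re_and ?_ ?_) (re_and ?_ ?_)
    · exact re_of_primrec (Primrec.eq.comp (Primrec.nat_mod.comp Primrec.fst (Primrec.const 2))
        (Primrec.const 0))
    · exact re_comp hp (g := fun x : ℕ × List ℕ => (x.1 / 2, x.2)) hdiv
    · exact re_of_primrec (Primrec.eq.comp (Primrec.nat_mod.comp Primrec.fst (Primrec.const 2))
        (Primrec.const 1))
    · exact re_comp hq (g := fun x : ℕ × List ℕ => (x.1 / 2, x.2)) hdiv
  · unfold join
    rw [Set.mem_setOf_eq, h, h']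
    constructor
    · rintro (⟨h3, l, h4, h5⟩ | ⟨h3, l, h4, h5⟩)
      · exact ⟨l, h4, Or.inl ⟨h3, h5⟩⟩
      · exact ⟨l, h4, Or.inr ⟨h3, h5⟩⟩
    · rintro ⟨l, h4, ⟨h3, h5⟩ | ⟨h3, h5⟩⟩
      · exact Or.inl ⟨h3, l, h4, h5⟩
      · exact Or.inr ⟨h3, l, h4, h5⟩

/-- the total set attached to a point of Cantor space -/
def hat (C : ℕ → Bool) : Set ℕ := {x | (x % 2 = 0 ∧ C (x / 2) = true) ∨
  (x % 2 = 1 ∧ C (x / 2) = false)}

theorem mem_hat_even (C : ℕ → Bool) (m : ℕ) : 2 * m ∈ hat C ↔ C m = true := by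
  unfold hat
  rw [Set.mem_setOf_eq]
  have h1 : 2 * m % 2 = 0 := by omega
  have h2 : 2 * m / 2 = m := by omega
  rw [h1, h2]
  simp

theorem mem_hat_odd (C : ℕ → Bool) (m : ℕ) : 2 * m + 1 ∈ hat C ↔ C m = false := by
  unfold hat
  rw [Set.mem_setOf_eq]
  have h1 : (2 * m + 1) % 2 = 1 := by omega
  have h2 : (2 * m + 1) / 2 = m := by omega
  rw [h1, h2]
  simp

theorem isTotalSet_hat (C : ℕ → Bool) : IsTotalSet (hat C) := by
  refine enumRed_of_map (f := fun n => cond (decide (n % 2 = 0)) (n + 1) (n - 1)) ?_ fun n => ?_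
  · refine Computable.cond ?_ Computable.succ Primrec.pred.to_comp
    exact (Primrec.eq.comp (Primrec.nat_mod.comp Primrec.id (Primrec.const 2))
        (Primrec.const 0)).decide.to_comp
  · rw [Set.mem_compl_iff]
    rcases Nat.even_or_odd' n with ⟨m, rfl | rfl⟩
    · have h1 : 2 * m % 2 = 0 := by omega
      have h2 : cond (decide (2 * m % 2 = 0)) (2 * m + 1) (2 * m - 1) = 2 * m + 1 := by
        rw [h1]; rfl
      rw [h2, mem_hat_even, mem_hat_odd]
      simp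
    · have h1 : (2 * m + 1) % 2 = 1 := by omega
      have h2 : cond (decide ((2 * m + 1) % 2 = 0)) (2 * m + 1 + 1) (2 * m + 1 - 1) = 2 * m := by
        rw [h1]; rfl
      rw [h2, mem_hat_even, mem_hat_odd]
      simp

theorem hat_of_total {T : Set ℕ} (h : IsTotalSet T) : ∃ Z : ℕ → Bool, EnumEquiv (hat Z) T := by
  classical
  refine ⟨fun m => decide (m ∈ T), ?_, ?_⟩
  · have h1 : hat (fun m => decide (m ∈ T)) = join T Tᶜ := by
      ext x
      unfold hat join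
      simp
    rw [h1]
    exact enumRed_join (EnumRed.refl T) h
  · refine enumRed_of_map (f := fun n => 2 * n)
      (Primrec.nat_mul.comp (Primrec.const 2) Primrec.id).to_comp fun n => ?_
    rw [mem_hat_even]
    simp

theorem almostTotal_cases {A : Set ℕ} (hA : AlmostTotal A) (C : ℕ → Bool) :
    EnumRed (hat C) A ∨ ∃ Z : ℕ → Bool, EnumRed (hat Z) (join A (hat C)) ∧ EnumRed A (hat Z) := by
  rcases hA (hat C) ⟨hat C, isTotalSet_hat C, EnumEquiv.refl _⟩ with h | ⟨T, hT, h1, h2⟩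
  · exact Or.inl h
  · obtain ⟨Z, hZ1, hZ2⟩ := hat_of_total hT
    exact Or.inr ⟨Z, hZ1.trans h1, (enumRed_join_left A (hat C)).trans (h2.trans hZ2)⟩

theorem countable_below (A : Set ℕ) : {C : ℕ → Bool | EnumRed (hat C) A}.Countable := by
  classical
  refine (Set.countable_range (fun (c : Code) (m : ℕ) => decide (∃ l : List ℕ,
    (c.eval (encode (2 * m, l))).Dom ∧ ∀ x, x ∈ l → x ∈ A))).mono ?_
  intro C hC
  obtain ⟨c, hc⟩ := enumRed_code hC
  refine ⟨c, ?_⟩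
  funext m
  have h1 := hc (2 * m)
  rw [mem_hat_even] at h1
  dsimp only
  rw [Bool.eq_iff_iff, decide_eq_true_eq, h1]

end Helper82Enum
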