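import Pool.Agent.Helper82_Enum.RE

/-! Open events over a set of naturals, the regular structure and the chain lemma. -/

namespace Helper82Enum

open Encodable
open Nat.Partrec (Code)

variable {α β γ : Type*} [Primcodable α] [Primcodable β] [Primcodable γ]

/-- the open event with index `c` holds at `A` -/
def Ev (c : Code) (A : Set ℕ) : Prop :=
  ∃ l : List ℕ, (∀ x, x ∈ l → x ∈ A) ∧ (c.eval (encode l)).Dom

/-- a finite list forces the event with index `c` -/
def Sat (c : Code) (l : List ℕ) : Prop :=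
  ∃ l' : List ℕ, (∀ x, x ∈ l' → x ∈ l) ∧ (c.eval (encode l')).Dom

/-- holding of a property of finite lists at a set -/
def Ho (q : List ℕ → Prop) (A : Set ℕ) : Prop :=
  ∃ l : List ℕ, (∀ x, x ∈ l → x ∈ A) ∧ q l

/-- monotone properties of lists -/
def Mono (q : List ℕ → Prop) : Prop :=
  ∀ l l' : List ℕ, (∀ x, x ∈ l → x ∈ l') → q l → q l'

theorem mono_sat (c : Code) : Mono (Sat c) := by
  rintro l l' h ⟨m, h1, h2⟩
  exact ⟨m, fun x hx => h x (h1 x hx), h2⟩

theorem ho_sat (c : Code) (A : Set ℕ) : Ho (Sat c) A ↔ Ev c A := by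
  constructor
  · rintro ⟨l, h, l', h1, h2⟩
    exact ⟨l', fun x hx => h x (h1 x hx), h2⟩
  · rintro ⟨l, h, h2⟩
    exact ⟨l, h, l, fun x hx => hx, h2⟩

theorem ho_and {q r : List ℕ → Prop} (hq : Mono q) (hr : Mono r) (A : Set ℕ) :
    Ho (fun l => q l ∧ r l) A ↔ Ho q A ∧ Ho r A := by
  constructor
  · rintro ⟨l, h, h1, h2⟩
    exact ⟨⟨l, h, h1⟩, l, h, h2⟩
  · rintro ⟨⟨l, h, h1⟩, l', h', h2⟩
    refine ⟨l ++ l', ?_, hq l _ (fun x hx => List.mem_append.2 (Or.inl hx)) h1,
      hr l' _ (fun x hx => List.mem_append.2 (Or.inr hx)) h2⟩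
    intro x hx
    rcases List.mem_append.1 hx with h3 | h3
    · exact h x h3
    · exact h' x h3

omit [Primcodable β] in
theorem ho_ex {q : β → List ℕ → Prop} (A : Set ℕ) :
    Ho (fun l => ∃ b, q b l) A ↔ ∃ b, Ho (q b) A := by
  constructor
  · rintro ⟨l, h, b, hb⟩
    exact ⟨b, l, h, hb⟩
  · rintro ⟨b, l, h, hb⟩
    exact ⟨l, h, b, hb⟩

theorem ho_const_and {P : Prop} {q : List ℕ → Prop} (A : Set ℕ) :
    Ho (fun l => P ∧ q l) A ↔ P ∧ Ho q A := by
  constructor
  · rintro ⟨l, h, hp, hb⟩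
    exact ⟨hp, l, h, hb⟩
  · rintro ⟨hp, l, h, hb⟩
    exact ⟨l, h, hp, hb⟩

theorem ho_const_or {P : Prop} {q : List ℕ → Prop} (A : Set ℕ) :
    Ho (fun l => P ∨ q l) A ↔ P ∨ Ho q A := by
  constructor
  · rintro ⟨l, h, hp | hb⟩
    · exact Or.inl hp
    · exact Or.inr ⟨l, h, hb⟩
  · rintro (hp | ⟨l, h, hb⟩)
    · exact ⟨[], by simp, Or.inl hp⟩
    · exact ⟨l, h, Or.inr hb⟩

theorem ho_ball {q : ℕ → List ℕ → Prop} (hq : ∀ j, Mono (q j)) (n : ℕ) (A : Set ℕ) :
    Ho (fun l => ∀ j, j < n → q j l) A ↔ ∀ j, j < n → Ho (q j) A := by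
  constructor
  · rintro ⟨l, h, h1⟩ j hj
    exact ⟨l, h, h1 j hj⟩
  · induction n with
    | zero => intro _; exact ⟨[], by simp, fun j hj => absurd hj (Nat.not_lt_zero j)⟩
    | succ n ih =>
      intro H
      obtain ⟨l, h, h1⟩ := ih fun j hj => H j (by omega)
      obtain ⟨l', h', h2⟩ := H n (by omega)
      refine ⟨l ++ l', ?_, ?_⟩
      · intro x hx
        rcases List.mem_append.1 hx with h3 | h3
        · exact h x h3
        · exact h' x h3
      · intro j hj
        rcases Nat.lt_succ_iff_lt_or_eq.1 hj with h3 | h3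
        · exact hq j l _ (fun x hx => List.mem_append.2 (Or.inl hx)) (h1 j h3)
        · subst h3
          exact hq j l' _ (fun x hx => List.mem_append.2 (Or.inr hx)) h2

theorem ho_list {q : ℕ → List ℕ → Prop} (hq : ∀ j, Mono (q j)) (m : List ℕ) (A : Set ℕ) :
    Ho (fun l => ∀ b, b ∈ m → q b l) A ↔ ∀ b, b ∈ m → Ho (q b) A := by
  constructor
  · rintro ⟨l, h, h1⟩ j hj
    exact ⟨l, h, h1 j hj⟩
  · induction m with
    | nil => intro _; exact ⟨[], by simp, fun j hj => absurd hj (List.not_mem_nil)⟩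
    | cons a m ih =>
      intro H
      obtain ⟨l, h, h1⟩ := ih fun j hj => H j (List.mem_cons_of_mem _ hj)
      obtain ⟨l', h', h2⟩ := H a (List.mem_cons_self)
      refine ⟨l ++ l', ?_, ?_⟩
      · intro x hx
        rcases List.mem_append.1 hx with h3 | h3
        · exact h x h3
        · exact h' x h3
      · intro j hj
        rcases List.mem_cons.1 hj with h3 | h3
        · subst h3
          exact hq j l' _ (fun x hx => List.mem_append.2 (Or.inr hx)) h2
        · exact hq j l _ (fun x hx => List.mem_append.2 (Or.inl hx)) (h1 j h3)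

theorem mono_and {q r : List ℕ → Prop} (hq : Mono q) (hr : Mono r) :
    Mono fun l => q l ∧ r l :=
  fun l l' h h1 => ⟨hq l l' h h1.1, hr l l' h h1.2⟩

omit [Primcodable β] in
theorem mono_ex {q : β → List ℕ → Prop} (hq : ∀ b, Mono (q b)) : Mono fun l => ∃ b, q b l := by
  rintro l l' h ⟨b, hb⟩
  exact ⟨b, hq b l l' h hb⟩

theorem mono_const (P : Prop) : Mono fun _ => P := fun _ _ _ h => h

theorem mono_ball {q : ℕ → List ℕ → Prop} (hq : ∀ j, Mono (q j)) (n : ℕ) :
    Mono fun l => ∀ j, j < n → q j l :=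
  fun l l' h h1 j hj => hq j l l' h (h1 j hj)

theorem re_mem : REPred fun x : ℕ × List ℕ => x.1 ∈ x.2 := by
  have h1 : REPred fun y : (ℕ × List ℕ) × ℕ => y.2 = y.1.1 :=
    re_of_primrec (Primrec.eq.comp Primrec.snd (Primrec.fst.comp Primrec.fst))
  refine (re_list_any h1 (g := fun x : ℕ × List ℕ => x.2) Computable.snd).of_eq fun x => ?_
  constructor
  · rintro ⟨b, hb, h⟩
    rw [← h]; exact hb
  · intro h
    exact ⟨x.1, h, rfl⟩

theorem re_sat : REPred fun x : Code × List ℕ => Sat x.1 x.2 := by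
  refine re_ex (p := fun y : (Code × List ℕ) × List ℕ =>
    (∀ x, x ∈ y.2 → x ∈ y.1.2) ∧ (y.1.1.eval (encode y.2)).Dom) ?_
  refine re_and ?_ ?_
  · refine re_list_all (p := fun z : ((Code × List ℕ) × List ℕ) × ℕ => z.2 ∈ z.1.1.2) ?_
      (g := fun y : (Code × List ℕ) × List ℕ => y.2) Computable.snd
    exact re_comp re_mem (g := fun z : ((Code × List ℕ) × List ℕ) × ℕ => (z.2, z.1.1.2))
      (Computable.snd.pair (Computable.snd.comp (Computable.fst.comp Computable.fst)))
  · exact re_comp re_eval (g := fun y : (Code × List ℕ) × List ℕ => (y.1.1, encode y.2))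
      ((Computable.fst.comp Computable.fst).pair (Computable.encode.comp Computable.snd))

/-- satisfaction of a computably indexed event is r.e. -/
theorem re_sat_comp {f : α → Code} {g : α → List ℕ} (hf : Computable f) (hg : Computable g) :
    REPred fun a => Sat (f a) (g a) :=
  re_comp re_sat (g := fun a => (f a, g a)) (hf.pair hg)

/-- event version of the s-m-n theorem -/
theorem ev_smn {p : α → List ℕ → Prop} (hp : REPred fun x : α × List ℕ => p x.1 x.2) :
    ∃ f : α → Code, Computable f ∧ ∀ a A, Ev (f a) A ↔ Ho (p a) A := by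
  obtain ⟨f, hf, h⟩ := re_smn hp
  refine ⟨f, hf, fun a A => ?_⟩
  constructor
  · rintro ⟨l, h1, h2⟩
    exact ⟨l, h1, (h a l).1 h2⟩
  · rintro ⟨l, h1, h2⟩
    exact ⟨l, h1, (h a l).2 h2⟩

theorem exists_conj : ∃ f : Code × Code → Code, Computable f ∧
    ∀ c d A, Ev (f (c, d)) A ↔ Ev c A ∧ Ev d A := by
  obtain ⟨f, hf, h⟩ := ev_smn (p := fun (x : Code × Code) l => Sat x.1 l ∧ Sat x.2 l)
    (re_and (re_sat_comp (Computable.fst.comp Computable.fst) Computable.snd)
      (re_sat_comp (Computable.snd.comp Computable.fst) Computable.snd))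
  refine ⟨f, hf, fun c d A => ?_⟩
  rw [h, ho_and (mono_sat _) (mono_sat _), ho_sat, ho_sat]

theorem exists_top : ∃ c : Code, ∀ A, Ev c A := by
  obtain ⟨f, -, h⟩ := ev_smn (α := ℕ) (p := fun _ _ => True)
    (re_of_primrec (PrimrecPred.of_eq (Primrec.eq.comp (Primrec.const 0) (Primrec.const 0))
      (by simp)))
  exact ⟨f 0, fun A => (h 0 A).2 ⟨[], by simp, trivial⟩⟩

theorem exists_memC : ∃ f : ℕ → Code, Computable f ∧ ∀ a A, Ev (f a) A ↔ a ∈ A := by
  obtain ⟨f, hf, h⟩ := ev_smn (p := fun (a : ℕ) l => a ∈ l) re_mem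
  refine ⟨f, hf, fun a A => ?_⟩
  rw [h]
  constructor
  · rintro ⟨l, h1, h2⟩
    exact h1 a h2
  · intro h
    exact ⟨[a], by simpa using h, by simp⟩

/-- base regular structure at `A` -/
structure BaseReg (A : Set ℕ) (r n : ℕ × ℕ → Code) : Prop where
  hr : Computable r
  hn : Computable n
  excl : ∀ a s, ¬ (Ev (r (a, s)) A ∧ Ev (n (a, s)) A)
  neg : ∀ a, a ∉ A → ∀ s, Ev (n (a, s)) A
  pos : ∀ a, a ∈ A → ∃ s, Ev (r (a, s)) A

/-- regular structure for all events at `A` -/
structure Reg (A : Set ℕ) (R N : Code × ℕ → Code) : Prop where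
  hR : Computable R
  hN : Computable N
  excl : ∀ c s, ¬ (Ev (R (c, s)) A ∧ Ev (N (c, s)) A)
  neg : ∀ c, ¬ Ev c A → ∀ s, Ev (N (c, s)) A
  pos : ∀ c, Ev c A → ∃ s, Ev (R (c, s)) A

theorem computable_isSome_evaln : Computable fun x : (ℕ × Code) × ℕ =>
    (Code.evaln x.1.1 x.1.2 x.2).isSome :=
  Primrec.option_isSome.to_comp.comp Code.primrec_evaln.to_comp

theorem exists_reg {A : Set ℕ} {r n : ℕ × ℕ → Code} (h : BaseReg A r n) :
    ∃ R N : Code × ℕ → Code, Reg A R N := by
  have hev : Computable fun y : ((Code × ℕ) × List ℕ) × ℕ =>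
      (Code.evaln y.1.1.2 y.1.1.1 y.2).isSome :=
    computable_isSome_evaln.comp (g := fun y : ((Code × ℕ) × List ℕ) × ℕ =>
      ((y.1.1.2, y.1.1.1), y.2))
      ((((Computable.snd.comp (Computable.fst.comp Computable.fst)).pair
          (Computable.fst.comp (Computable.fst.comp Computable.fst))).pair Computable.snd))
  obtain ⟨R, hR, hR'⟩ := ev_smn (p := fun (x : Code × ℕ) l =>
    ∃ m : ℕ, (Code.evaln x.2 x.1 m).isSome = true ∧
      ∀ b, b ∈ Denumerable.ofNat (List ℕ) m → ∃ t : ℕ, t < x.2 + 1 ∧ Sat (r (b, t)) l) (by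
    refine re_ex (p := fun y : ((Code × ℕ) × List ℕ) × ℕ =>
      (Code.evaln y.1.1.2 y.1.1.1 y.2).isSome = true ∧
      ∀ b, b ∈ Denumerable.ofNat (List ℕ) y.2 → ∃ t : ℕ, t < y.1.1.2 + 1 ∧
        Sat (r (b, t)) y.1.2) ?_
    refine re_and ?_ ?_
    · exact re_of_computable hev
    · refine re_list_all (p := fun z : (((Code × ℕ) × List ℕ) × ℕ) × ℕ =>
        ∃ t : ℕ, t < z.1.1.1.2 + 1 ∧ Sat (r (z.2, t)) z.1.1.2) ?_
        (g := fun y : ((Code × ℕ) × List ℕ) × ℕ => Denumerable.ofNat (List ℕ) y.2)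
        ((Computable.ofNat _).comp Computable.snd)
      refine re_ex (p := fun w : ((((Code × ℕ) × List ℕ) × ℕ) × ℕ) × ℕ =>
        w.2 < w.1.1.1.1.2 + 1 ∧ Sat (r (w.1.2, w.2)) w.1.1.1.2) ?_
      refine re_and ?_ ?_
      · refine re_of_primrec (Primrec.nat_lt.comp Primrec.snd (Primrec.succ.comp ?_))
        exact Primrec.snd.comp (Primrec.fst.comp (Primrec.fst.comp
          (Primrec.fst.comp Primrec.fst)))
      · refine re_sat_comp (h.hr.comp ((Computable.snd.comp Computable.fst).pair Computable.snd))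
          ?_
        exact Computable.snd.comp (Computable.fst.comp (Computable.fst.comp Computable.fst)))
  obtain ⟨N, hN, hN'⟩ := ev_smn (p := fun (x : Code × ℕ) l =>
    ∀ m : ℕ, m < x.2 → ((Code.evaln x.2 x.1 m).isSome = false ∨
      ∃ b, b ∈ Denumerable.ofNat (List ℕ) m ∧ ∀ t : ℕ, t < x.2 + 1 → Sat (n (b, t)) l)) (by
    refine re_ball (p := fun y : ((Code × ℕ) × List ℕ) × ℕ =>
      ((Code.evaln y.1.1.2 y.1.1.1 y.2).isSome = false ∨
      ∃ b, b ∈ Denumerable.ofNat (List ℕ) y.2 ∧ ∀ t : ℕ, t < y.1.1.2 + 1 →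
        Sat (n (b, t)) y.1.2)) ?_ (Computable.snd.comp Computable.fst)
    refine re_or ?_ ?_
    · refine (re_of_computable ((Primrec.not.to_comp).comp hev)).of_eq fun y => ?_
      cases (Code.evaln y.1.1.2 y.1.1.1 y.2).isSome <;> simp
    · refine re_list_any (p := fun z : (((Code × ℕ) × List ℕ) × ℕ) × ℕ =>
        ∀ t : ℕ, t < z.1.1.1.2 + 1 → Sat (n (z.2, t)) z.1.1.2) ?_
        (g := fun y : ((Code × ℕ) × List ℕ) × ℕ => Denumerable.ofNat (List ℕ) y.2)
        ((Computable.ofNat _).comp Computable.snd)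
      refine re_ball (p := fun w : ((((Code × ℕ) × List ℕ) × ℕ) × ℕ) × ℕ =>
        Sat (n (w.1.2, w.2)) w.1.1.1.2) ?_ ?_
      · refine re_sat_comp (h.hn.comp ((Computable.snd.comp Computable.fst).pair Computable.snd))
          ?_
        exact Computable.snd.comp (Computable.fst.comp (Computable.fst.comp Computable.fst))
      · exact Computable.succ.comp (Computable.snd.comp (Computable.fst.comp
          (Computable.fst.comp Computable.fst))))
  have eR : ∀ c s, Ev (R (c, s)) A ↔ ∃ m : ℕ, (Code.evaln s c m).isSome = true ∧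
      ∀ b, b ∈ Denumerable.ofNat (List ℕ) m → ∃ t : ℕ, t < s + 1 ∧ Ev (r (b, t)) A := by
    intro c s
    rw [hR', ho_ex]
    refine exists_congr fun m => ?_
    rw [ho_const_and, ho_list]
    · refine and_congr Iff.rfl (forall_congr' fun b => imp_congr Iff.rfl ?_)
      rw [ho_ex]
      refine exists_congr fun t => ?_
      rw [ho_const_and, ho_sat]
    · intro j
      exact mono_ex fun t => mono_and (mono_const _) (mono_sat _)
  have eN : ∀ c s, Ev (N (c, s)) A ↔ ∀ m : ℕ, m < s → ((Code.evaln s c m).isSome = false ∨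
      ∃ b, b ∈ Denumerable.ofNat (List ℕ) m ∧ ∀ t : ℕ, t < s + 1 → Ev (n (b, t)) A) := by
    intro c s
    rw [hN', ho_ball]
    · refine forall_congr' fun m => imp_congr Iff.rfl ?_
      rw [ho_const_or, ho_ex]
      refine or_congr Iff.rfl (exists_congr fun b => ?_)
      rw [ho_const_and, ho_ball]
      · refine and_congr Iff.rfl (forall_congr' fun t => imp_congr Iff.rfl ?_)
        rw [ho_sat]
      · intro j; exact mono_sat _
    · intro m l l' hl h1
      rcases h1 with h1 | h1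
      · exact Or.inl h1
      · exact Or.inr (mono_ex (fun b => mono_and (mono_const _)
          (mono_ball (fun t => mono_sat _) _)) l l' hl h1)
  refine ⟨R, N, hR, hN, ?_, ?_, ?_⟩
  · rintro c s ⟨h1, h2⟩
    obtain ⟨m, hm, hb⟩ := (eR c s).1 h1
    obtain ⟨y, hy⟩ := Option.isSome_iff_exists.1 hm
    have hms : m < s := Code.evaln_bound (Option.mem_def.2 hy)
    rcases (eN c s).1 h2 m hms with h3 | ⟨b, hb', h3⟩
    · rw [hm] at h3; exact absurd h3 (by decide)
    · obtain ⟨t, ht, h4⟩ := hb b hb'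
      exact h.excl b t ⟨h4, h3 t ht⟩
  · intro c hc s
    rw [eN]
    intro m hm
    by_cases h1 : (Code.evaln s c m).isSome = true
    · right
      by_contra hcon
      apply hc
      obtain ⟨y, hy⟩ := Option.isSome_iff_exists.1 h1
      refine ⟨Denumerable.ofNat (List ℕ) m, ?_, ?_⟩
      · intro x hx
        by_contra hxA
        exact hcon ⟨x, hx, fun t _ => h.neg x hxA t⟩
      · rw [Denumerable.encode_ofNat]
        exact Part.dom_iff_mem.2 ⟨y, Code.evaln_sound (Option.mem_def.2 hy)⟩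
    · left
      simpa using h1
  · rintro c ⟨l, hl, hd⟩
    obtain ⟨y, hy⟩ := Part.dom_iff_mem.1 hd
    obtain ⟨k, hk⟩ := Code.evaln_complete.1 hy
    have hb : ∃ t, ∀ b, b ∈ l → ∃ u, u < t ∧ Ev (r (b, u)) A := by
      clear hd hy hk
      induction l with
      | nil => exact ⟨0, by simp⟩
      | cons a l ih =>
        obtain ⟨t, ht⟩ := ih fun x hx => hl x (List.mem_cons_of_mem _ hx)
        obtain ⟨u, hu⟩ := h.pos a (hl a List.mem_cons_self)
        refine ⟨max t (u + 1), fun b hb => ?_⟩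
        rcases List.mem_cons.1 hb with h1 | h1
        · subst h1; exact ⟨u, by omega, hu⟩
        · obtain ⟨v, hv, hv'⟩ := ht b h1
          exact ⟨v, by omega, hv'⟩
    obtain ⟨t, ht⟩ := hb
    refine ⟨max k t, (eR _ _).2 ⟨encode l, ?_, ?_⟩⟩
    · have := Code.evaln_mono (le_max_left k t) hk
      rw [Option.mem_def.1 this]; rfl
    · intro b hb
      rw [Denumerable.ofNat_encode] at hb
      obtain ⟨u, hu, hu'⟩ := ht b hb
      exact ⟨u, by omega, hu'⟩

/-- chain structure for all events at `A` -/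
structure Chain (A : Set ℕ) (R N : Code × ℕ → Code) : Prop where
  hR : Computable R
  hN : Computable N
  zero : ∀ c, Ev (N (c, 0)) A
  cov : ∀ c k, Ev (N (c, k)) A ∨ Ev (R (c, k)) A
  excl : ∀ c k, ¬ (Ev (R (c, k)) A ∧ Ev (N (c, k + 1)) A)
  pos : ∀ c, Ev c A → ∃ k, ¬ Ev (N (c, k)) A
  neg : ∀ c k, ¬ Ev c A → Ev (N (c, k)) A

theorem exists_interp {A : Set ℕ} {R N : Code × ℕ → Code} (h : Reg A R N) :
    ∃ U : Code × Code → Code, Computable U ∧
      ∀ c d, Ev (U (c, d)) A ↔ ∃ i : ℕ, Ev (R (c, i)) A ∧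
        ∀ j : ℕ, j < i + 1 → Ev (N (d, j)) A := by
  obtain ⟨U, hU, hU'⟩ := ev_smn (p := fun (x : Code × Code) l =>
    ∃ i : ℕ, Sat (R (x.1, i)) l ∧ ∀ j : ℕ, j < i + 1 → Sat (N (x.2, j)) l) (by
    refine re_ex (p := fun y : ((Code × Code) × List ℕ) × ℕ =>
      Sat (R (y.1.1.1, y.2)) y.1.2 ∧ ∀ j : ℕ, j < y.2 + 1 → Sat (N (y.1.1.2, j)) y.1.2) ?_
    refine re_and ?_ ?_
    · exact re_sat_comp (h.hR.comp ((Computable.fst.comp (Computable.fst.comp
        Computable.fst)).pair Computable.snd)) (Computable.snd.comp Computable.fst)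
    · refine re_ball (p := fun z : (((Code × Code) × List ℕ) × ℕ) × ℕ =>
        Sat (N (z.1.1.1.2, z.2)) z.1.1.2) ?_ (Computable.succ.comp Computable.snd)
      exact re_sat_comp (h.hN.comp ((Computable.snd.comp (Computable.fst.comp
        (Computable.fst.comp Computable.fst))).pair Computable.snd))
        (Computable.snd.comp (Computable.fst.comp Computable.fst)))
  refine ⟨U, hU, fun c d => ?_⟩
  rw [hU', ho_ex]
  refine exists_congr fun i => ?_
  rw [ho_and (mono_sat _) (mono_ball (fun j => mono_sat _) _), ho_sat,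
    ho_ball (fun j => mono_sat _)]
  refine and_congr Iff.rfl (forall_congr' fun j => imp_congr Iff.rfl ?_)
  rw [ho_sat]

theorem exists_chain {A : Set ℕ} {R N : Code × ℕ → Code} (h : Reg A R N) :
    ∃ R' N' : Code × ℕ → Code, Chain A R' N' := by
  obtain ⟨U, hU, hU'⟩ := exists_interp h
  obtain ⟨conj, hconj, hconj'⟩ := exists_conj
  obtain ⟨top, htop⟩ := exists_top
  let n : Code → ℕ → Code := fun c k =>
    Nat.rec top (fun k d => conj (U (d, c), N (c, k))) k
  have n0 : ∀ c, n c 0 = top := fun c => rfl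
  have nS : ∀ c k, n c (k + 1) = conj (U (n c k, c), N (c, k)) := fun c k => rfl
  have hn : Computable fun x : Code × ℕ => n x.1 x.2 := by
    refine Computable.nat_rec (f := fun x : Code × ℕ => x.2) (g := fun _ => top)
      (h := fun x p => conj (U (p.2, x.1), N (x.1, p.1))) Computable.snd
      (Computable.const top) ?_
    exact hconj.comp ((hU.comp ((Computable.snd.comp Computable.snd).pair
      (Computable.fst.comp Computable.fst))).pair
      (h.hN.comp ((Computable.fst.comp Computable.fst).pair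
        (Computable.fst.comp Computable.snd))))
  have hneg : ∀ c k, ¬ Ev c A → Ev (n c k) A := by
    intro c k hc
    induction k with
    | zero => rw [n0]; exact htop A
    | succ k ih =>
      rw [nS, hconj', hU']
      refine ⟨?_, h.neg c hc k⟩
      obtain ⟨i, hi⟩ := h.pos _ ih
      exact ⟨i, hi, fun j _ => h.neg c hc j⟩
  refine ⟨fun x => U (x.1, n x.1 x.2), fun x => n x.1 x.2, ?_, hn, ?_, ?_, ?_, ?_, ?_⟩
  · exact hU.comp (Computable.fst.pair hn)
  · intro c; exact htop A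
  · intro c k
    by_cases hk : Ev (n c k) A
    · exact Or.inl hk
    · right
      have hc : Ev c A := by
        by_contra hc
        exact hk (hneg c k hc)
      show Ev (U (c, n c k)) A
      rw [hU']
      obtain ⟨i, hi⟩ := h.pos c hc
      exact ⟨i, hi, fun j _ => h.neg _ hk j⟩
  · rintro c k ⟨h1, h2⟩
    change Ev (U (c, n c k)) A at h1
    change Ev (n c (k + 1)) A at h2
    rw [nS, hconj'] at h2
    rw [hU'] at h1
    have h3 := h2.1
    rw [hU'] at h3
    obtain ⟨i, hi, hi'⟩ := h1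
    obtain ⟨i', hj, hj'⟩ := h3
    by_cases hii : i ≤ i'
    · exact h.excl c i ⟨hi, hj' i (by omega)⟩
    · exact h.excl (n c k) i' ⟨hj, hi' i' (by omega)⟩
  · intro c hc
    obtain ⟨k, hk⟩ := h.pos c hc
    refine ⟨k + 1, fun h1 => ?_⟩
    change Ev (n c (k + 1)) A at h1
    rw [nS, hconj'] at h1
    exact h.excl c k ⟨hk, h1.2⟩
  · intro c k hc
    exact hneg c k hc

end Helper82Enum
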