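import Pool.Agent.Helper82_Enum.Hist

/-! From the chain structure to graph-cototality. -/

namespace Helper82Enum

open Encodable
open Nat.Partrec (Code)

variable {A : Set ℕ} (P : Ops A)

/-- the closed condition of a history fails -/
def Ops.NEA (h : List Choice) : Prop :=
  ∃ j, j < h.length ∧ P.NC j (P.st (lf h) j) (lf h j)

theorem Ops.graphCototal_of_form (NF : ℕ → List Choice → Prop)
    (hNF : REPred fun x : ℕ × List Choice => NF x.1 x.2)
    (h1 : ∀ a, a ∈ A → ∃ h, ¬ NF a h ∧ ¬ P.NEA h)
    (h2 : ∀ a, a ∈ A → ∀ h h', ¬ NF a h → ¬ P.NEA h → ¬ NF a h' → ¬ P.NEA h' → h = h')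
    (h3 : ∀ a h, ¬ NF a h → ¬ P.NEA h → a ∈ A) : GraphCototal A := by
  classical
  let g : ℕ → ℕ := fun a => if h : ∃ h, ¬ NF a h ∧ ¬ P.NEA h then encode h.choose + 1 else 0
  have g0 : ∀ a, g a ≠ 0 ↔ a ∈ A := by
    intro a
    by_cases h : ∃ h, ¬ NF a h ∧ ¬ P.NEA h
    · have hg : g a = encode h.choose + 1 := dif_pos h
      rw [hg]
      constructor
      · intro _
        exact h3 a _ h.choose_spec.1 h.choose_spec.2
      · intro _; omega
    · have hg : g a = 0 := dif_neg h
      rw [hg]
      constructor
      · intro hc; exact absurd rfl hc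
      · intro ha; exact absurd (h1 a ha) h
  have gS : ∀ a k, g a ≠ k + 1 ↔ (decode₂ (List Choice) k = none ∨
      ∃ h : List Choice, encode h = k ∧ (NF a h ∨ P.NEA h)) := by
    intro a k
    constructor
    · intro hg
      by_contra hcon
      rw [not_or] at hcon
      obtain ⟨hc1, hc2⟩ := hcon
      obtain ⟨h, hh⟩ := Option.ne_none_iff_exists'.1 hc1
      have hk : encode h = k := decode₂_eq_some.1 hh
      have hnn : ¬ (NF a h ∨ P.NEA h) := fun hx => hc2 ⟨h, hk, hx⟩
      rw [not_or] at hnn
      have hex : ∃ h, ¬ NF a h ∧ ¬ P.NEA h := ⟨h, hnn⟩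
      have ha : a ∈ A := h3 a h hnn.1 hnn.2
      have he : hex.choose = h := h2 a ha _ _ hex.choose_spec.1 hex.choose_spec.2 hnn.1 hnn.2
      apply hg
      have hg' : g a = encode hex.choose + 1 := dif_pos hex
      rw [hg', he, hk]
    · rintro hor hg
      by_cases hex : ∃ h, ¬ NF a h ∧ ¬ P.NEA h
      · have hg' : g a = encode hex.choose + 1 := dif_pos hex
        have hk : encode hex.choose = k := by omega
        rcases hor with hor | ⟨h, hh, hor⟩
        · rw [← hk, decode₂_encode] at hor
          exact absurd hor (by simp)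
        · have he : h = hex.choose := Encodable.encode_injective (by rw [hh, hk])
          rw [he] at hor
          rcases hor with hor | hor
          · exact hex.choose_spec.1 hor
          · exact hex.choose_spec.2 hor
      · have hg' : g a = 0 := dif_neg hex
        omega
  refine ⟨g, ?_, ?_⟩
  · refine ⟨{x | (x.1.unpair.2 = 0 ∧ x.1.unpair.1 ∈ x.2) ∨ (0 < x.1.unpair.2 ∧
      (decode₂ (List Choice) (x.1.unpair.2 - 1) = none ∨
        ∃ h : List Choice, encode h = x.1.unpair.2 - 1 ∧
          (NF x.1.unpair.1 h ∨ P.NEl h x.2)))}, ?_, ?_⟩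
    · have e1 : Primrec fun x : ℕ × List ℕ => x.1.unpair.2 :=
        Primrec.snd.comp (Primrec.unpair.comp Primrec.fst)
      have e0 : Primrec fun x : ℕ × List ℕ => x.1.unpair.1 :=
        Primrec.fst.comp (Primrec.unpair.comp Primrec.fst)
      have r1 : REPred fun x : ℕ × List ℕ => x.1.unpair.2 = 0 :=
        re_of_primrec (Primrec.eq.comp e1 (Primrec.const 0))
      have r2 : REPred fun x : ℕ × List ℕ => x.1.unpair.1 ∈ x.2 :=
        re_comp re_mem (g := fun x : ℕ × List ℕ => (x.1.unpair.1, x.2))
          (e0.to_comp.pair Computable.snd)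
      have r3 : REPred fun x : ℕ × List ℕ => 0 < x.1.unpair.2 :=
        re_of_primrec (Primrec.nat_lt.comp (Primrec.const 0) e1)
      have r4 : REPred fun x : ℕ × List ℕ =>
          decode₂ (List Choice) (x.1.unpair.2 - 1) = none := by
        have q1 : Primrec fun x : ℕ × List ℕ => decode₂ (List Choice) (x.1.unpair.2 - 1) :=
          Primrec.decode₂.comp (Primrec.pred.comp e1)
        refine (re_of_computable (Primrec.not.comp (Primrec.option_isSome.comp q1)).to_comp).of_eq
          fun x => ?_
        cases decode₂ (List Choice) (x.1.unpair.2 - 1) <;> simp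
      have r5 : REPred fun x : ℕ × List ℕ => ∃ h : List Choice, encode h = x.1.unpair.2 - 1 ∧
          (NF x.1.unpair.1 h ∨ P.NEl h x.2) := by
        refine re_ex (p := fun y : (ℕ × List ℕ) × List Choice =>
          encode y.2 = y.1.1.unpair.2 - 1 ∧ (NF y.1.1.unpair.1 y.2 ∨ P.NEl y.2 y.1.2)) ?_
        refine re_and ?_ (re_or ?_ ?_)
        · exact re_of_primrec (Primrec.eq.comp (Primrec.encode.comp Primrec.snd)
            (Primrec.pred.comp (e1.comp Primrec.fst)))
        · exact re_comp hNF (g := fun y : (ℕ × List ℕ) × List Choice => (y.1.1.unpair.1, y.2))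
            ((e0.to_comp.comp Computable.fst).pair Computable.snd)
        · exact re_comp P.re_NEl (g := fun y : (ℕ × List ℕ) × List Choice => (y.2, y.1.2))
            (Computable.snd.pair (Computable.snd.comp Computable.fst))
      exact re_or (re_and r1 r2) (re_and r3 (re_or r4 r5))
    · intro n
      have hgc : n ∈ graphCompl g ↔ g n.unpair.1 ≠ n.unpair.2 := Iff.rfl
      rw [hgc]
      rcases Nat.eq_zero_or_pos n.unpair.2 with hz | hz
      · rw [hz, g0]
        constructor
        · intro ha
          exact ⟨[n.unpair.1], Or.inl ⟨hz, by simp⟩, by simpa using ha⟩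
        · rintro ⟨l, hl | hl, hA⟩
          · exact hA _ hl.2
          · exact absurd hl.1 (by simp [hz])
      · obtain ⟨k, hk⟩ := Nat.exists_eq_succ_of_ne_zero (Nat.pos_iff_ne_zero.1 hz)
        have hk' : n.unpair.2 - 1 = k := by omega
        rw [hk, Nat.succ_eq_add_one, gS]
        constructor
        · rintro (hor | ⟨h, hh, hor | hor⟩)
          · exact ⟨[], Or.inr ⟨hz, Or.inl (by rw [hk']; exact hor)⟩, by simp⟩
          · exact ⟨[], Or.inr ⟨hz, Or.inr ⟨h, by rw [hk']; exact hh, Or.inl hor⟩⟩, by simp⟩
          · obtain ⟨l, hl, hl'⟩ := (P.ho_NEl h).2 hor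
            exact ⟨l, Or.inr ⟨hz, Or.inr ⟨h, by rw [hk']; exact hh, Or.inr hl'⟩⟩, hl⟩
        · rintro ⟨l, hl | ⟨-, hl⟩, hA⟩
          · exact absurd hl.1 (Nat.pos_iff_ne_zero.1 hz)
          · dsimp only at hl
            rw [hk'] at hl
            rcases hl with hl | ⟨h, hh, hl | hl⟩
            · exact Or.inl hl
            · exact Or.inr ⟨h, hh, Or.inl hl⟩
            · exact Or.inr ⟨h, hh, Or.inr ((P.ho_NEl h).1 ⟨l, hA, hl⟩)⟩
  · refine ⟨{x | Nat.pair x.1 0 ∈ x.2}, ?_, ?_⟩
    · exact re_comp re_mem (g := fun x : ℕ × List ℕ => (Nat.pair x.1 0, x.2))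
        ((Primrec₂.natPair.comp Primrec.fst (Primrec.const 0)).to_comp.pair Computable.snd)
    · intro a
      have hgc : Nat.pair a 0 ∈ graphCompl g ↔ a ∈ A := by
        rw [← g0 a]
        show g (Nat.pair a 0).unpair.1 ≠ (Nat.pair a 0).unpair.2 ↔ _
        rw [Nat.unpair_pair]
      rw [← hgc]
      constructor
      · intro h
        refine ⟨[Nat.pair a 0], ?_, ?_⟩
        · show Nat.pair a 0 ∈ [Nat.pair a 0]
          simp
        · intro x hx
          rw [List.mem_singleton] at hx
          rw [hx]; exact h
      · rintro ⟨l, hl, hl'⟩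
        exact hl' _ hl

theorem Ops.prefix_of {H : ℕ → Choice}
    (hH : ∀ j, Ev (P.st H j) A ∧ P.good j (P.st H j) (H j))
    {h : List Choice} (hh : ¬ P.NEA h)
    (hx : ∀ i, i + 1 = h.length → lf h i ≠ H i → (lf h i).2.2 = false →
      (H i).2.2 = true → False) :
    ∀ i, i < h.length → lf h i = H i := by
  have hh' : ∀ j, j < h.length → ¬ P.NC j (P.st (lf h) j) (lf h j) :=
    fun j hj hc => hh ⟨j, hj, hc⟩
  intro i
  induction i using Nat.strong_induction_on with
  | _ i ih =>
    intro hi
    by_contra hne
    obtain ⟨a1, a2, a3⟩ := P.uniq hH hh' hi (fun k hk => ih k hk (by omega)) hne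
    exact hx i a1 hne a2 a3

theorem Ops.not_NEA_of_prefix {H : ℕ → Choice}
    (hH : ∀ j, Ev (P.st H j) A ∧ P.good j (P.st H j) (H j))
    {h : List Choice} (hp : ∀ i, i < h.length → lf h i = H i) : ¬ P.NEA h := by
  rintro ⟨j, hj, hc⟩
  have hst : P.st (lf h) j = P.st H j := P.st_congr fun i hi => hp i (by omega)
  rw [hst, hp j hj] at hc
  exact P.not_NC_of_good (hH j).2 hc

theorem lf_map_range (H : ℕ → Choice) (m i : ℕ) (hi : i < m) :
    lf ((List.range m).map H) i = H i := by
  unfold lf
  rw [List.getD_eq_getElem?_getD, List.getElem?_map, List.getElem?_range hi]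
  rfl

theorem eq_map_range {H : ℕ → Choice} {h : List Choice} {m : ℕ} (hl : h.length = m)
    (hp : ∀ i, i < h.length → lf h i = H i) : h = (List.range m).map H := by
  apply List.ext_getElem
  · simp [hl]
  · intro i h1 h2
    have h3 := hp i h1
    unfold lf at h3
    rw [List.getD_eq_getElem?_getD, List.getElem?_eq_getElem h1] at h3
    simp only [Option.getD_some] at h3
    rw [h3]
    simp

include P in
theorem Ops.graphCototal : GraphCototal A := by
  classical
  obtain ⟨H, hH⟩ := P.exists_history
  have plen : Primrec fun x : ℕ × List Choice => x.2.length :=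
    Primrec.list_length.comp Primrec.snd
  have plf : ∀ {g : ℕ × List Choice → ℕ}, Primrec g →
      Primrec fun x : ℕ × List Choice => lf x.2 (g x) := by
    intro g hg
    exact (Primrec.list_getD (default : Choice)).comp Primrec.snd hg
  have plf' : Primrec fun y : (ℕ × List Choice) × ℕ => lf y.1.2 y.2 :=
    (Primrec.list_getD (default : Choice)).comp (Primrec.snd.comp Primrec.fst) Primrec.snd
  have hbA : ∀ a, (H a).1 = true ↔ a ∈ A := fun a => (hH a).2.1
  by_cases hinf : ∀ m, ∃ k, m ≤ k ∧ (H k).2.2 = true
  · -- infinitely many closed choices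
    refine P.graphCototal_of_form (fun a h => h.length ≤ a ∨ ((lf h a).1 = false ∨
      ((lf h (h.length - 1)).2.2 = false ∨
        ∃ i, i < h.length - 1 ∧ (a ≤ i ∧ (lf h i).2.2 = true)))) ?_ ?_ ?_ ?_
    · refine re_or ?_ (re_or ?_ (re_or ?_ ?_))
      · exact re_of_primrec (Primrec.nat_le.comp plen Primrec.fst)
      · exact re_of_primrec (Primrec.eq.comp (Primrec.fst.comp (plf Primrec.fst))
          (Primrec.const false))
      · exact re_of_primrec (Primrec.eq.comp (Primrec.snd.comp (Primrec.snd.comp
          (plf (Primrec.pred.comp plen)))) (Primrec.const false))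
      · refine re_ex (p := fun y : (ℕ × List Choice) × ℕ => y.2 < y.1.2.length - 1 ∧
          (y.1.1 ≤ y.2 ∧ (lf y.1.2 y.2).2.2 = true)) ?_
        refine re_and ?_ (re_and ?_ ?_)
        · exact re_of_primrec (Primrec.nat_lt.comp Primrec.snd
            (Primrec.pred.comp (plen.comp Primrec.fst)))
        · exact re_of_primrec (Primrec.nat_le.comp (Primrec.fst.comp Primrec.fst) Primrec.snd)
        · exact re_of_primrec (Primrec.eq.comp (Primrec.snd.comp (Primrec.snd.comp plf'))
            (Primrec.const true))
    · intro a ha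
      have hex : ∃ k, a ≤ k ∧ (H k).2.2 = true := hinf a
      set m := Nat.find hex with hm
      have hm1 := Nat.find_spec hex
      have hlen : ((List.range (m + 1)).map H).length = m + 1 := by simp
      refine ⟨(List.range (m + 1)).map H, ?_, ?_⟩
      · rintro (h4 | h4 | h4 | ⟨i, h4, h5, h6⟩)
        · rw [hlen] at h4; omega
        · rw [lf_map_range H _ _ (by omega)] at h4
          rw [(hbA a).2 ha] at h4
          exact absurd h4 (by decide)
        · rw [hlen, Nat.add_sub_cancel, lf_map_range H _ _ (by omega)] at h4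
          rw [hm1.2] at h4
          exact absurd h4 (by decide)
        · rw [hlen, Nat.add_sub_cancel] at h4
          rw [lf_map_range H _ _ (by omega)] at h6
          exact Nat.find_min hex h4 ⟨h5, h6⟩
      · exact P.not_NEA_of_prefix hH fun i hi => lf_map_range H _ _ (by rw [hlen] at hi; exact hi)
    · intro a ha
      have key : ∀ h : List Choice, ¬ (h.length ≤ a ∨ ((lf h a).1 = false ∨
        ((lf h (h.length - 1)).2.2 = false ∨
        ∃ i, i < h.length - 1 ∧ (a ≤ i ∧ (lf h i).2.2 = true)))) → ¬ P.NEA h →
        h = (List.range (Nat.find (hinf a) + 1)).map H := by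
        intro h hnf hne
        rw [not_or, not_or, not_or] at hnf
        obtain ⟨n1, n2, n3, n4⟩ := hnf
        have hp : ∀ i, i < h.length → lf h i = H i := by
          refine P.prefix_of hH hne ?_
          intro i hi _ h5 _
          apply n3
          have : h.length - 1 = i := by omega
          rw [this]; exact h5
        refine eq_map_range ?_ hp
        have hspec := Nat.find_spec (hinf a)
        have hlast : (H (h.length - 1)).2.2 = true := by
          rw [← hp (h.length - 1) (by omega)]
          cases h5 : (lf h (h.length - 1)).2.2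
          · exact absurd h5 n3
          · rfl
        have hle : Nat.find (hinf a) ≤ h.length - 1 :=
          Nat.find_min' (hinf a) ⟨by omega, hlast⟩
        by_contra hne2
        apply n4
        refine ⟨Nat.find (hinf a), by omega, hspec.1, ?_⟩
        rw [hp _ (by omega)]
        exact hspec.2
      intro h h' a1 a2 a3 a4
      rw [key h a1 a2, key h' a3 a4]
    · intro a h hnf hne
      rw [not_or, not_or, not_or] at hnf
      obtain ⟨n1, n2, n3, n4⟩ := hnf
      have hp : ∀ i, i < h.length → lf h i = H i := by
        refine P.prefix_of hH hne ?_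
        intro i hi _ h5 _
        apply n3
        have : h.length - 1 = i := by omega
        rw [this]; exact h5
      rw [← hbA a, ← hp a (by omega)]
      cases h5 : (lf h a).1
      · exact absurd h5 n2
      · rfl
  · -- finitely many closed choices
    rw [not_forall] at hinf
    obtain ⟨m0, hm0⟩ := hinf
    have hm0' : ∀ k, m0 ≤ k → (H k).2.2 = false := by
      intro k hk
      cases h5 : (H k).2.2
      · rfl
      · exact absurd ⟨k, hk, h5⟩ hm0
    refine P.graphCototal_of_form (fun a h => h.length ≠ max m0 (a + 1) ∨ ((lf h a).1 = false ∨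
      ∃ i, i < m0 ∧ lf h i ≠ lf ((List.range m0).map H) i)) ?_ ?_ ?_ ?_
    · refine re_or ?_ (re_or ?_ ?_)
      · exact re_of_primrec (Primrec.eq.comp plen (Primrec.nat_max.comp (Primrec.const m0)
          (Primrec.succ.comp Primrec.fst))).not
      · exact re_of_primrec (Primrec.eq.comp (Primrec.fst.comp (plf Primrec.fst))
          (Primrec.const false))
      · refine re_ex (p := fun y : (ℕ × List Choice) × ℕ => y.2 < m0 ∧
          lf y.1.2 y.2 ≠ lf ((List.range m0).map H) y.2) ?_
        refine re_and ?_ ?_
        · exact re_of_primrec (Primrec.nat_lt.comp Primrec.snd (Primrec.const m0))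
        · exact re_of_primrec (Primrec.eq.comp plf'
            ((Primrec.list_getD (default : Choice)).comp (Primrec.const _) Primrec.snd)).not
    · intro a ha
      have hlen : ((List.range (max m0 (a + 1))).map H).length = max m0 (a + 1) := by simp
      refine ⟨(List.range (max m0 (a + 1))).map H, ?_, ?_⟩
      · rintro (h4 | h4 | ⟨i, h4, h5⟩)
        · exact h4 hlen
        · rw [lf_map_range H _ _ (by omega)] at h4
          rw [(hbA a).2 ha] at h4
          exact absurd h4 (by decide)
        · rw [lf_map_range H _ _ (by omega), lf_map_range H _ _ h4] at h5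
          exact h5 rfl
      · exact P.not_NEA_of_prefix hH fun i hi => lf_map_range H _ _ (by rw [hlen] at hi; exact hi)
    · intro a ha
      have key : ∀ h : List Choice, ¬ (h.length ≠ max m0 (a + 1) ∨ ((lf h a).1 = false ∨
        ∃ i, i < m0 ∧ lf h i ≠ lf ((List.range m0).map H) i)) → ¬ P.NEA h →
        h = (List.range (max m0 (a + 1))).map H := by
        intro h hnf hne
        rw [not_or, not_or] at hnf
        obtain ⟨n1, n2, n3⟩ := hnf
        have hl : h.length = max m0 (a + 1) := not_not.1 n1
        refine eq_map_range hl (P.prefix_of hH hne ?_)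
        intro i hi h4 _ h6
        by_cases hi2 : m0 ≤ i
        · rw [hm0' i hi2] at h6
          exact absurd h6 (by decide)
        · apply n3
          refine ⟨i, by omega, ?_⟩
          rw [lf_map_range H _ _ (by omega)]
          exact h4
      intro h h' a1 a2 a3 a4
      rw [key h a1 a2, key h' a3 a4]
    · intro a h hnf hne
      rw [not_or, not_or] at hnf
      obtain ⟨n1, n2, n3⟩ := hnf
      have hl : h.length = max m0 (a + 1) := not_not.1 n1
      have hp : ∀ i, i < h.length → lf h i = H i := by
        refine P.prefix_of hH hne ?_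
        intro i hi h4 _ h6
        by_cases hi2 : m0 ≤ i
        · rw [hm0' i hi2] at h6
          exact absurd h6 (by decide)
        · apply n3
          refine ⟨i, by omega, ?_⟩
          rw [lf_map_range H _ _ (by omega)]
          exact h4
      rw [← hbA a, ← hp a (by omega)]
      cases h5 : (lf h a).1
      · exact absurd h5 n2
      · rfl

/-- A base regular structure makes the degree of `A` graph-cototal. -/
theorem graphCototal_of_baseReg {A : Set ℕ} {r n : ℕ × ℕ → Code} (h : BaseReg A r n) :
    GraphCototal A := by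
  obtain ⟨R, N, hRN⟩ := exists_reg h
  obtain ⟨R', N', hc⟩ := exists_chain hRN
  obtain ⟨conj, h1, h2⟩ := exists_conj
  obtain ⟨top, h3⟩ := exists_top
  obtain ⟨mem, h4, h5⟩ := exists_memC
  exact Ops.graphCototal ⟨R', N', conj, mem, top, hc, h1, fun c d => h2 c d A, h4,
    fun a => h5 a A, h3 A⟩

end Helper82Enum
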