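import Pool.Agent.Helper82_Enum.Chain
import Pool.Agent.Helper82_Enum.Defs

/-! Histories and the graph function. -/

namespace Helper82Enum

open Encodable
open Nat.Partrec (Code)

/-- one step of a history -/
abbrev Choice := Bool × ℕ × Bool

/-- packaged operations at `A` -/
structure Ops (A : Set ℕ) where
  R : Code × ℕ → Code
  N : Code × ℕ → Code
  conj : Code × Code → Code
  mem : ℕ → Code
  top : Code
  chain : Chain A R N
  hconj : Computable conj
  conj_iff : ∀ c d, Ev (conj (c, d)) A ↔ Ev c A ∧ Ev d A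
  hmem : Computable mem
  mem_iff : ∀ a, Ev (mem a) A ↔ a ∈ A
  top_holds : Ev top A

variable {A : Set ℕ} (P : Ops A)

/-- the open condition of a step -/
def Ops.evt (j : ℕ) (o : Code) (b : Bool) : Code := cond b (P.conj (o, P.mem j)) o

/-- the next state -/
def Ops.nxt (j : ℕ) (o : Code) (ch : Choice) : Code :=
  cond ch.2.2 P.top (P.conj (P.N (P.evt j o ch.1, ch.2.1), P.R (P.evt j o ch.1, ch.2.1)))

/-- the state before step `j` -/
def Ops.st (H : ℕ → Choice) (j : ℕ) : Code := Nat.rec P.top (fun i o => P.nxt i o (H i)) j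

theorem Ops.st_zero (H : ℕ → Choice) : P.st H 0 = P.top := rfl

theorem Ops.st_succ (H : ℕ → Choice) (j : ℕ) : P.st H (j + 1) = P.nxt j (P.st H j) (H j) := rfl

theorem Ops.st_congr {H H' : ℕ → Choice} {j : ℕ} (h : ∀ i, i < j → H i = H' i) :
    P.st H j = P.st H' j := by
  induction j with
  | zero => rfl
  | succ j ih =>
    rw [P.st_succ, P.st_succ, ih fun i hi => h i (by omega), h j (by omega)]

/-- the open and closed pieces of an event -/
def Ops.piece (e : Code) (r : ℕ) (t : Bool) : Prop :=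
  if t = true then ¬ Ev (P.N (e, r + 1)) A ∧ ¬ Ev (P.R (e, r)) A
  else Ev (P.N (e, r)) A ∧ Ev (P.R (e, r)) A

/-- negation of the closed condition of a step -/
def Ops.NC (j : ℕ) (o : Code) (ch : Choice) : Prop :=
  (ch.1 = false ∧ j ∈ A) ∨
  ((ch.2.2 = true ∧ (Ev (P.N (P.evt j o ch.1, ch.2.1 + 1)) A ∨
      Ev (P.R (P.evt j o ch.1, ch.2.1)) A)) ∨
  (ch.2.2 = false ∧ (Ev (P.N (P.evt j o ch.1, ch.2.1 + 1)) A ∨
      (0 < ch.2.1 ∧ Ev (P.R (P.evt j o ch.1, ch.2.1 - 1)) A))))

theorem Ops.N_anti (e : Code) {j k : ℕ} (hjk : j ≤ k) (h : ¬ Ev (P.N (e, j)) A) :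
    ¬ Ev (P.N (e, k)) A := by
  induction k, hjk using Nat.le_induction with
  | base => exact h
  | succ k _ ih =>
    intro h1
    have h2 := (P.chain.cov e k).resolve_left ih
    exact P.chain.excl e k ⟨h2, h1⟩

theorem Ops.R_mono (e : Code) {j k : ℕ} (hjk : j ≤ k) (h : Ev (P.R (e, j)) A) :
    Ev (P.R (e, k)) A := by
  induction k, hjk using Nat.le_induction with
  | base => exact h
  | succ k _ ih =>
    have h1 : ¬ Ev (P.N (e, k + 1)) A := fun h1 => P.chain.excl e k ⟨ih, h1⟩
    exact (P.chain.cov e (k + 1)).resolve_left h1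

theorem Ops.piece_core {e : Code} {r : ℕ} {t : Bool} (h : P.piece e r t) :
    Ev (P.N (e, r)) A ∧ ¬ Ev (P.N (e, r + 1)) A := by
  unfold Ops.piece at h
  split_ifs at h with ht
  · exact ⟨(P.chain.cov e r).resolve_right h.2, h.1⟩
  · exact ⟨h.1, fun h1 => P.chain.excl e r ⟨h.2, h1⟩⟩

theorem Ops.piece_exists {e : Code} (h : Ev e A) : ∃ r t, P.piece e r t := by
  classical
  have hex := P.chain.pos e h
  set k := Nat.find hex with hk
  have hk1 : ¬ Ev (P.N (e, k)) A := Nat.find_spec hex
  have hk0 : k ≠ 0 := by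
    intro h0
    rw [h0] at hk1
    exact hk1 (P.chain.zero e)
  obtain ⟨r, hr⟩ := Nat.exists_eq_succ_of_ne_zero hk0
  have hr1 : Ev (P.N (e, r)) A := by
    by_contra hcon
    exact Nat.find_min hex (m := r) (by omega) hcon
  rw [hr] at hk1
  by_cases hR : Ev (P.R (e, r)) A
  · exact ⟨r, false, by unfold Ops.piece; rw [if_neg (by decide)]; exact ⟨hr1, hR⟩⟩
  · exact ⟨r, true, by unfold Ops.piece; rw [if_pos rfl]; exact ⟨hk1, hR⟩⟩

theorem Ops.piece_unique {e : Code} {r r' : ℕ} {t t' : Bool} (h : P.piece e r t)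
    (h' : P.piece e r' t') : r = r' ∧ t = t' := by
  have h1 := P.piece_core h
  have h2 := P.piece_core h'
  have hr : r = r' := by
    rcases lt_trichotomy r r' with hlt | heq | hlt
    · exact absurd h2.1 (P.N_anti e (by omega) h1.2)
    · exact heq
    · exact absurd h1.1 (P.N_anti e (by omega) h2.2)
  subst hr
  refine ⟨rfl, ?_⟩
  unfold Ops.piece at h h'
  cases t <;> cases t'
  · rfl
  · simp only [if_pos, Bool.false_eq_true] at h h'
    exact absurd h.2 h'.2
  · simp only [if_pos, Bool.false_eq_true] at h h'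
    exact absurd h'.2 h.2
  · rfl

theorem Ops.closed_op {e : Code} {r r' : ℕ} {t' : Bool} (h1 : ¬ Ev (P.N (e, r + 1)) A)
    (h2 : 0 < r → ¬ Ev (P.R (e, r - 1)) A) (h : P.piece e r' t')
    (hne : ¬ P.piece e r false) : t' = true := by
  have h3 := P.piece_core h
  have hle : r' ≤ r := by
    by_contra hcon
    exact P.N_anti e (by omega) h1 h3.1
  rcases Nat.eq_or_lt_of_le hle with heq | hlt
  · subst heq
    cases t'
    · exact absurd h hne
    · rfl
  · cases t'
    · exfalso
      unfold Ops.piece at h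
      simp only [Bool.false_eq_true, if_false] at h
      exact h2 (by omega) (P.R_mono e (by omega) h.2)
    · rfl

/-- a step is correct -/
def Ops.good (j : ℕ) (o : Code) (ch : Choice) : Prop :=
  (ch.1 = true ↔ j ∈ A) ∧ P.piece (P.evt j o ch.1) ch.2.1 ch.2.2

theorem Ops.evt_iff (j : ℕ) (o : Code) (b : Bool) :
    Ev (P.evt j o b) A ↔ Ev o A ∧ (b = true → j ∈ A) := by
  cases b
  · simp [Ops.evt]
  · simp only [Ops.evt, cond_true, P.conj_iff, P.mem_iff]
    simp

theorem Ops.exists_good (j : ℕ) {o : Code} (h : Ev o A) : ∃ ch, P.good j o ch := by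
  classical
  have h1 : Ev (P.evt j o (decide (j ∈ A))) A := by
    rw [P.evt_iff]
    exact ⟨h, fun h2 => of_decide_eq_true h2⟩
  obtain ⟨r, t, hrt⟩ := P.piece_exists h1
  exact ⟨(decide (j ∈ A), r, t), by simp, hrt⟩

theorem Ops.nxt_holds {j : ℕ} {o : Code} {ch : Choice} (h : P.good j o ch) :
    Ev (P.nxt j o ch) A := by
  obtain ⟨b, r, t⟩ := ch
  obtain ⟨-, h2⟩ := h
  unfold Ops.piece at h2
  cases t
  · simp only [Bool.false_eq_true, if_false] at h2
    simp only [Ops.nxt, cond_false, P.conj_iff]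
    exact h2
  · simp only [Ops.nxt, cond_true]
    exact P.top_holds

theorem Ops.exists_history : ∃ H : ℕ → Choice,
    ∀ j, Ev (P.st H j) A ∧ P.good j (P.st H j) (H j) := by
  classical
  have hpick : ∀ (j : ℕ) (o : Code), ∃ ch, Ev o A → P.good j o ch := by
    intro j o
    by_cases h : Ev o A
    · obtain ⟨ch, hch⟩ := P.exists_good j h
      exact ⟨ch, fun _ => hch⟩
    · exact ⟨default, fun h' => absurd h' h⟩
  choose pick hp using hpick
  let s : ℕ → Code := fun j => Nat.rec P.top (fun i o => P.nxt i o (pick i o)) j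
  have s0 : s 0 = P.top := rfl
  have sS : ∀ j, s (j + 1) = P.nxt j (s j) (pick j (s j)) := fun j => rfl
  have hs : ∀ j, Ev (s j) A := by
    intro j
    induction j with
    | zero => rw [s0]; exact P.top_holds
    | succ j ih => rw [sS]; exact P.nxt_holds (hp j (s j) ih)
  let H : ℕ → Choice := fun j => pick j (s j)
  have hst : ∀ j, P.st H j = s j := by
    intro j
    induction j with
    | zero => rfl
    | succ j ih => rw [P.st_succ, ih, sS]
  refine ⟨H, fun j => ?_⟩
  rw [hst]
  exact ⟨hs j, hp j (s j) (hs j)⟩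

theorem Ops.not_NC_of_good {j : ℕ} {o : Code} {ch : Choice} (h : P.good j o ch) :
    ¬ P.NC j o ch := by
  obtain ⟨b, r, t⟩ := ch
  obtain ⟨h1, h2⟩ := h
  unfold Ops.piece at h2
  simp only at h1 h2
  rintro (⟨h3, h4⟩ | ⟨h3, h4⟩ | ⟨h3, h4⟩)
  · simp only at h3
    rw [h3] at h1
    exact absurd (h1.2 h4) (by decide)
  · simp only at h3 h4
    rw [if_pos h3] at h2
    rcases h4 with h4 | h4
    · exact h2.1 h4
    · exact h2.2 h4
  · simp only at h3 h4
    rw [if_neg (by rw [h3]; decide)] at h2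
    rcases h4 with h4 | ⟨h5, h4⟩
    · exact P.chain.excl _ r ⟨h2.2, h4⟩
    · refine P.chain.excl (P.evt j o b) (r - 1) ⟨h4, ?_⟩
      rw [Nat.sub_add_cancel h5]
      exact h2.1

theorem Ops.evt_of_not_NC {j : ℕ} {o : Code} {ch : Choice} (h : ¬ P.NC j o ch) :
    Ev (P.evt j o ch.1) A := by
  by_contra hcon
  apply h
  have h1 := P.chain.neg _ (ch.2.1 + 1) hcon
  cases ht : ch.2.2
  · exact Or.inr (Or.inr ⟨ht, Or.inl h1⟩)
  · exact Or.inr (Or.inl ⟨ht, Or.inl h1⟩)

/-- view a list as a function -/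
def lf (h : List Choice) : ℕ → Choice := fun i => h.getD i default

theorem Ops.uniq {H : ℕ → Choice} (hH : ∀ j, Ev (P.st H j) A ∧ P.good j (P.st H j) (H j))
    {h : List Choice} (hh : ∀ j, j < h.length → ¬ P.NC j (P.st (lf h) j) (lf h j))
    {i : ℕ} (hi : i < h.length) (hlt : ∀ k, k < i → lf h k = H k) (hne : lf h i ≠ H i) :
    i + 1 = h.length ∧ (lf h i).2.2 = false ∧ (H i).2.2 = true := by
  have hst : P.st (lf h) i = P.st H i := P.st_congr hlt
  obtain ⟨ho, hg⟩ := hH i
  have hnc := hh i hi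
  have hev := P.evt_of_not_NC hnc
  rw [hst] at hnc hev
  set o := P.st H i with hodef
  -- the first components agree
  have hb : (lf h i).1 = (H i).1 := by
    by_cases hA : i ∈ A
    · have h1 : (H i).1 = true := hg.1.2 hA
      rw [h1]
      by_contra h2
      have h3 : (lf h i).1 = false := by
        cases h4 : (lf h i).1
        · rfl
        · exact absurd h4 h2
      exact hnc (Or.inl ⟨h3, hA⟩)
    · have h1 : (H i).1 = false := by
        cases h4 : (H i).1
        · rfl
        · exact absurd (hg.1.1 h4) hA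
      rw [h1]
      rw [P.evt_iff] at hev
      cases h4 : (lf h i).1
      · rfl
      · exact absurd (hev.2 h4) hA
  set e := P.evt i o (H i).1 with hedef
  have hpc : P.piece e (H i).2.1 (H i).2.2 := hg.2
  have hne2 : ¬ P.piece e (lf h i).2.1 (lf h i).2.2 := by
    intro hp
    obtain ⟨h1, h2⟩ := P.piece_unique hp hpc
    exact hne (Prod.ext hb (Prod.ext h1 h2))
  have ht : (lf h i).2.2 = false := by
    cases h4 : (lf h i).2.2
    · rfl
    · exfalso
      apply hne2
      unfold Ops.piece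
      rw [if_pos h4]
      constructor
      · intro h5
        apply hnc
        refine Or.inr (Or.inl ⟨h4, Or.inl ?_⟩)
        rw [hb]; exact h5
      · intro h5
        apply hnc
        refine Or.inr (Or.inl ⟨h4, Or.inr ?_⟩)
        rw [hb]; exact h5
  have hne3 : ¬ P.piece e (lf h i).2.1 false := by rw [ht] at hne2; exact hne2
  have hT : (H i).2.2 = true := by
    refine P.closed_op (e := e) (r := (lf h i).2.1) ?_ ?_ hpc hne3
    · intro h5
      apply hnc
      refine Or.inr (Or.inr ⟨ht, Or.inl ?_⟩)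
      rw [hb]; exact h5
    · intro h6 h5
      apply hnc
      refine Or.inr (Or.inr ⟨ht, Or.inr ⟨h6, ?_⟩⟩)
      rw [hb]; exact h5
  refine ⟨?_, ht, hT⟩
  by_contra hlast
  have hi1 : i + 1 < h.length := by omega
  have hev1 := P.evt_of_not_NC (hh (i + 1) hi1)
  rw [P.evt_iff, P.st_succ, hst] at hev1
  have h7 := hev1.1
  simp only [Ops.nxt, ht, cond_false, P.conj_iff] at h7
  apply hne3
  unfold Ops.piece
  rw [if_neg (by decide)]
  rw [hb] at h7
  exact h7

/-- negation of the closed condition of a history, on lists of naturals -/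
def Ops.NEl (h : List Choice) (l : List ℕ) : Prop :=
  ∃ j : ℕ, j < h.length ∧
    (((lf h j).1 = false ∧ j ∈ l) ∨
    (((lf h j).2.2 = true ∧ (Sat (P.N (P.evt j (P.st (lf h) j) (lf h j).1, (lf h j).2.1 + 1)) l ∨
        Sat (P.R (P.evt j (P.st (lf h) j) (lf h j).1, (lf h j).2.1)) l)) ∨
    ((lf h j).2.2 = false ∧
      (Sat (P.N (P.evt j (P.st (lf h) j) (lf h j).1, (lf h j).2.1 + 1)) l ∨
        (0 < (lf h j).2.1 ∧
          Sat (P.R (P.evt j (P.st (lf h) j) (lf h j).1, (lf h j).2.1 - 1)) l)))))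

theorem ho_or' {q r : List ℕ → Prop} (A : Set ℕ) :
    Ho (fun l => q l ∨ r l) A ↔ Ho q A ∨ Ho r A := by
  constructor
  · rintro ⟨l, h, h1 | h1⟩
    · exact Or.inl ⟨l, h, h1⟩
    · exact Or.inr ⟨l, h, h1⟩
  · rintro (⟨l, h, h1⟩ | ⟨l, h, h1⟩)
    · exact ⟨l, h, Or.inl h1⟩
    · exact ⟨l, h, Or.inr h1⟩

theorem ho_mem (a : ℕ) (A : Set ℕ) : Ho (fun l => a ∈ l) A ↔ a ∈ A := by
  constructor
  · rintro ⟨l, h1, h2⟩
    exact h1 a h2
  · intro h
    exact ⟨[a], by simpa using h, by simp⟩

theorem Ops.ho_NEl (h : List Choice) :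
    Ho (P.NEl h) A ↔ ∃ j, j < h.length ∧ P.NC j (P.st (lf h) j) (lf h j) := by
  unfold Ops.NEl
  rw [ho_ex]
  refine exists_congr fun j => ?_
  rw [ho_const_and]
  refine and_congr Iff.rfl ?_
  unfold Ops.NC
  rw [ho_or', ho_or', ho_const_and, ho_const_and, ho_const_and, ho_or', ho_or', ho_const_and,
    ho_mem, ho_sat, ho_sat, ho_sat]

theorem computable_lf : Computable fun x : List Choice × ℕ => lf x.1 x.2 :=
  (Primrec.list_getD (default : Choice)).to_comp.comp Computable.fst Computable.snd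

theorem Ops.computable_evt : Computable fun x : ℕ × Code × Bool => P.evt x.1 x.2.1 x.2.2 := by
  have h1 : Computable fun x : ℕ × Code × Bool => (x.2.1, P.mem x.1) :=
    (Computable.fst.comp Computable.snd).pair (P.hmem.comp Computable.fst)
  have h2 : Computable fun x : ℕ × Code × Bool => P.conj (x.2.1, P.mem x.1) :=
    P.hconj.comp h1
  have h3 : Computable fun x : ℕ × Code × Bool => x.2.2 := Computable.snd.comp Computable.snd
  have h4 : Computable fun x : ℕ × Code × Bool => x.2.1 := Computable.fst.comp Computable.snd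
  have h5 : Computable fun x : ℕ × Code × Bool =>
      cond x.2.2 (P.conj (x.2.1, P.mem x.1)) x.2.1 := Computable.cond h3 h2 h4
  exact h5

theorem Ops.computable_nxt : Computable fun x : ℕ × Code × Choice => P.nxt x.1 x.2.1 x.2.2 := by
  have h0 : Computable fun x : ℕ × Code × Choice => P.evt x.1 x.2.1 x.2.2.1 :=
    P.computable_evt.comp (g := fun x : ℕ × Code × Choice => (x.1, x.2.1, x.2.2.1))
        (Computable.fst.pair ((Computable.fst.comp Computable.snd).pair
          (Computable.fst.comp (Computable.snd.comp Computable.snd))))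
  have hr : Computable fun x : ℕ × Code × Choice => x.2.2.2.1 :=
    Computable.fst.comp (Computable.snd.comp (Computable.snd.comp Computable.snd))
  have h1 : Computable fun x : ℕ × Code × Choice => (P.evt x.1 x.2.1 x.2.2.1, x.2.2.2.1) :=
    Computable.pair h0 hr
  have h2 : Computable fun x : ℕ × Code × Choice =>
      P.N (P.evt x.1 x.2.1 x.2.2.1, x.2.2.2.1) := P.chain.hN.comp h1
  have h3 : Computable fun x : ℕ × Code × Choice =>
      P.R (P.evt x.1 x.2.1 x.2.2.1, x.2.2.2.1) := P.chain.hR.comp h1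
  have h4 : Computable fun x : ℕ × Code × Choice =>
      P.conj (P.N (P.evt x.1 x.2.1 x.2.2.1, x.2.2.2.1),
        P.R (P.evt x.1 x.2.1 x.2.2.1, x.2.2.2.1)) := P.hconj.comp (h2.pair h3)
  have h5 : Computable fun x : ℕ × Code × Choice => x.2.2.2.2 :=
    Computable.snd.comp (Computable.snd.comp (Computable.snd.comp Computable.snd))
  have h6 : Computable fun x : ℕ × Code × Choice => cond x.2.2.2.2 P.top
      (P.conj (P.N (P.evt x.1 x.2.1 x.2.2.1, x.2.2.2.1),
        P.R (P.evt x.1 x.2.1 x.2.2.1, x.2.2.2.1))) :=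
    Computable.cond h5 (Computable.const P.top) h4
  exact h6

theorem Ops.computable_st : Computable fun x : List Choice × ℕ => P.st (lf x.1) x.2 := by
  refine Computable.nat_rec (f := fun x : List Choice × ℕ => x.2) (g := fun _ => P.top)
    (h := fun x p => P.nxt p.1 p.2 (lf x.1 p.1)) Computable.snd (Computable.const _) ?_
  have h1 : Computable fun y : (List Choice × ℕ) × ℕ × Code => lf y.1.1 y.2.1 :=
    computable_lf.comp (g := fun y : (List Choice × ℕ) × ℕ × Code => (y.1.1, y.2.1))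
      ((Computable.fst.comp Computable.fst).pair (Computable.fst.comp Computable.snd))
  exact P.computable_nxt.comp (g := fun y : (List Choice × ℕ) × ℕ × Code =>
      (y.2.1, y.2.2, lf y.1.1 y.2.1))
    ((Computable.fst.comp Computable.snd).pair ((Computable.snd.comp Computable.snd).pair h1))

theorem Ops.re_NEl : REPred fun x : List Choice × List ℕ => P.NEl x.1 x.2 := by
  unfold Ops.NEl
  refine re_ex (p := fun y : (List Choice × List ℕ) × ℕ => y.2 < y.1.1.length ∧
    (((lf y.1.1 y.2).1 = false ∧ y.2 ∈ y.1.2) ∨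
    (((lf y.1.1 y.2).2.2 = true ∧
      (Sat (P.N (P.evt y.2 (P.st (lf y.1.1) y.2) (lf y.1.1 y.2).1, (lf y.1.1 y.2).2.1 + 1)) y.1.2 ∨
        Sat (P.R (P.evt y.2 (P.st (lf y.1.1) y.2) (lf y.1.1 y.2).1, (lf y.1.1 y.2).2.1)) y.1.2)) ∨
    ((lf y.1.1 y.2).2.2 = false ∧
      (Sat (P.N (P.evt y.2 (P.st (lf y.1.1) y.2) (lf y.1.1 y.2).1, (lf y.1.1 y.2).2.1 + 1)) y.1.2 ∨
        (0 < (lf y.1.1 y.2).2.1 ∧
          Sat (P.R (P.evt y.2 (P.st (lf y.1.1) y.2) (lf y.1.1 y.2).1,
            (lf y.1.1 y.2).2.1 - 1)) y.1.2)))))) ?_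
  have hlf : Computable fun y : (List Choice × List ℕ) × ℕ => lf y.1.1 y.2 :=
    computable_lf.comp (g := fun y : (List Choice × List ℕ) × ℕ => (y.1.1, y.2))
      ((Computable.fst.comp Computable.fst).pair Computable.snd)
  have hst : Computable fun y : (List Choice × List ℕ) × ℕ => P.st (lf y.1.1) y.2 :=
    P.computable_st.comp (g := fun y : (List Choice × List ℕ) × ℕ => (y.1.1, y.2))
      ((Computable.fst.comp Computable.fst).pair Computable.snd)
  have hevt : Computable fun y : (List Choice × List ℕ) × ℕ =>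
      P.evt y.2 (P.st (lf y.1.1) y.2) (lf y.1.1 y.2).1 :=
    P.computable_evt.comp (g := fun y : (List Choice × List ℕ) × ℕ =>
      (y.2, P.st (lf y.1.1) y.2, (lf y.1.1 y.2).1))
      (Computable.snd.pair (hst.pair (Computable.fst.comp hlf)))
  have hr : Computable fun y : (List Choice × List ℕ) × ℕ => (lf y.1.1 y.2).2.1 :=
    Computable.fst.comp (Computable.snd.comp hlf)
  have ht : Computable fun y : (List Choice × List ℕ) × ℕ => (lf y.1.1 y.2).2.2 :=
    Computable.snd.comp (Computable.snd.comp hlf)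
  have hl : Computable fun y : (List Choice × List ℕ) × ℕ => y.1.2 :=
    Computable.snd.comp Computable.fst
  have h1 : REPred fun y : (List Choice × List ℕ) × ℕ =>
      Sat (P.N (P.evt y.2 (P.st (lf y.1.1) y.2) (lf y.1.1 y.2).1, (lf y.1.1 y.2).2.1 + 1)) y.1.2 :=
    re_sat_comp (P.chain.hN.comp (hevt.pair (Computable.succ.comp hr))) hl
  have h2 : REPred fun y : (List Choice × List ℕ) × ℕ =>
      Sat (P.R (P.evt y.2 (P.st (lf y.1.1) y.2) (lf y.1.1 y.2).1, (lf y.1.1 y.2).2.1)) y.1.2 :=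
    re_sat_comp (P.chain.hR.comp (hevt.pair hr)) hl
  have h3 : REPred fun y : (List Choice × List ℕ) × ℕ =>
      Sat (P.R (P.evt y.2 (P.st (lf y.1.1) y.2) (lf y.1.1 y.2).1,
        (lf y.1.1 y.2).2.1 - 1)) y.1.2 :=
    re_sat_comp (P.chain.hR.comp (hevt.pair (Computable.pred.comp hr))) hl
  have h4 : REPred fun y : (List Choice × List ℕ) × ℕ => (lf y.1.1 y.2).2.2 = true :=
    re_of_computable ht
  have h5 : REPred fun y : (List Choice × List ℕ) × ℕ => (lf y.1.1 y.2).2.2 = false :=
    (re_of_computable (Primrec.not.to_comp.comp ht)).of_eq fun y => by simp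
  have h6 : REPred fun y : (List Choice × List ℕ) × ℕ => (lf y.1.1 y.2).1 = false :=
    (re_of_computable (Primrec.not.to_comp.comp (Computable.fst.comp hlf))).of_eq
      fun y => by simp
  have h7 : REPred fun y : (List Choice × List ℕ) × ℕ => y.2 ∈ y.1.2 :=
    re_comp re_mem (g := fun y : (List Choice × List ℕ) × ℕ => (y.2, y.1.2))
      (Computable.snd.pair hl)
  have h8 : REPred fun y : (List Choice × List ℕ) × ℕ => y.2 < y.1.1.length :=
    re_of_primrec (Primrec.nat_lt.comp Primrec.snd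
      (Primrec.list_length.comp (Primrec.fst.comp Primrec.fst)))
  have h9 : REPred fun y : (List Choice × List ℕ) × ℕ => 0 < (lf y.1.1 y.2).2.1 := by
    refine (re_comp (p := fun n : ℕ => 0 < n) (re_of_primrec
      (Primrec.nat_lt.comp (Primrec.const 0) Primrec.id)) hr)
  exact re_and h8 (re_or (re_and h6 h7) (re_or (re_and h4 (re_or h1 h2))
    (re_and h5 (re_or h1 (re_and h9 h3)))))

end Helper82Enum
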