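import Mathlib

/-! Fair coin measure on Cantor space: cylinders and the density lemma. -/

namespace Helper82Enum

open MeasureTheory
open scoped ENNReal

/-- fair coin -/
noncomputable def coin : Measure Bool := (PMF.uniformOfFintype Bool).toMeasure

instance : IsProbabilityMeasure coin := PMF.toMeasure.isProbabilityMeasure _

theorem coin_singleton (b : Bool) : coin {b} = 2⁻¹ := by
  unfold coin
  rw [PMF.toMeasure_apply_singleton _ _ (measurableSet_singleton b)]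
  simp

/-- fair coin measure on Cantor space -/
noncomputable def mu : Measure (ℕ → Bool) := Measure.infinitePi (fun _ : ℕ => coin)

instance : IsProbabilityMeasure mu := by unfold mu; infer_instance

/-- the cylinder of points whose first `n` bits are those of `v` -/
def cyl (n v : ℕ) : Set (ℕ → Bool) := {C | ∀ i, i < n → C i = v.testBit i}

theorem cyl_eq (n v : ℕ) : cyl n v = Set.pi (Finset.range n : Set ℕ) (fun i => {v.testBit i}) := by
  ext C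
  simp [cyl, Set.mem_pi]

theorem mu_cyl (n v : ℕ) : mu (cyl n v) = (2⁻¹ : ℝ≥0∞) ^ n := by
  rw [cyl_eq]
  unfold mu
  rw [Measure.infinitePi_pi _ (fun i _ => measurableSet_singleton _)]
  simp [coin_singleton]

theorem measurableSet_cyl (n v : ℕ) : MeasurableSet (cyl n v) := by
  rw [cyl_eq]
  exact MeasurableSet.pi (Finset.countable_toSet _) fun i _ => measurableSet_singleton _

theorem exists_trunc (C : ℕ → Bool) (n : ℕ) : ∃ v, v < 2 ^ n ∧ C ∈ cyl n v := by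
  refine ⟨Nat.ofBits (fun i : Fin n => C i), Nat.ofBits_lt_two_pow _, fun i hi => ?_⟩
  rw [Nat.testBit_ofBits_lt _ _ hi]

theorem trunc_unique {n v w : ℕ} (hv : v < 2 ^ n) (hw : w < 2 ^ n)
    (h : ∀ i, i < n → v.testBit i = w.testBit i) : v = w := by
  refine Nat.eq_of_testBit_eq fun i => ?_
  by_cases hi : i < n
  · exact h i hi
  · have h1 : 2 ^ n ≤ 2 ^ i := Nat.pow_le_pow_right (by norm_num) (by omega)
    rw [Nat.testBit_lt_two_pow (lt_of_lt_of_le hv h1), Nat.testBit_lt_two_pow (lt_of_lt_of_le hw h1)]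

theorem cyl_unique {n v w : ℕ} {C : ℕ → Bool} (hv : v < 2 ^ n) (hw : w < 2 ^ n)
    (h1 : C ∈ cyl n v) (h2 : C ∈ cyl n w) : v = w :=
  trunc_unique hv hw fun i hi => (h1 i hi).symm.trans (h2 i hi)

theorem mu_union (n : ℕ) (s : Finset ℕ) (hs : ∀ v, v ∈ s → v < 2 ^ n) :
    mu (⋃ v ∈ s, cyl n v) = s.card * (2⁻¹ : ℝ≥0∞) ^ n := by
  rw [measure_biUnion_finset]
  · simp [mu_cyl]
  · intro v hv w hw hvw
    rw [Function.onFun, Set.disjoint_left]
    intro C h1 h2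
    exact hvw (cyl_unique (hs v hv) (hs w hw) h1 h2)
  · intro v _
    exact measurableSet_cyl n v

/-- density lemma, for arbitrary sets and the outer measure -/
theorem exists_density {G : Set (ℕ → Bool)} (hG : mu G ≠ 0) :
    ∃ n v, v < 2 ^ n ∧ (9 / 10 : ℝ≥0∞) * (2⁻¹ : ℝ≥0∞) ^ n < mu (G ∩ cyl n v) := by
  classical
  by_contra hcon
  push Not at hcon
  have hfin : mu G ≠ ∞ := measure_ne_top _ _
  have hlt : mu G < (10 / 9 : ℝ≥0∞) * mu G := by
    have h1 : (1 : ℝ≥0∞) * mu G < (10 / 9 : ℝ≥0∞) * mu G := by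
      rw [ENNReal.mul_lt_mul_iff_left hG hfin]
      rw [ENNReal.lt_div_iff_mul_lt (by norm_num) (by norm_num)]
      norm_num
    simpa using h1
  obtain ⟨U, hGU, hU, hUm⟩ := Set.exists_isOpen_lt_of_lt G _ hlt
  let S : ℕ → Finset ℕ := fun n => (Finset.range (2 ^ n)).filter fun v => cyl n v ⊆ U
  let V : ℕ → Set (ℕ → Bool) := fun n => ⋃ v ∈ S n, cyl n v
  have hSlt : ∀ n v, v ∈ S n → v < 2 ^ n := fun n v hv =>
    Finset.mem_range.1 (Finset.mem_filter.1 hv).1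
  have hVmem : ∀ n C, C ∈ V n ↔ ∃ v, v < 2 ^ n ∧ cyl n v ⊆ U ∧ C ∈ cyl n v := by
    intro n C
    simp only [V, S, Set.mem_iUnion, Finset.mem_filter, Finset.mem_range]
    constructor
    · rintro ⟨v, ⟨h1, h2⟩, h3⟩
      exact ⟨v, h1, h2, h3⟩
    · rintro ⟨v, h1, h2, h3⟩
      exact ⟨v, ⟨h1, h2⟩, h3⟩
  have hVU : ∀ n, V n ⊆ U := by
    intro n C hC
    obtain ⟨v, -, h2, h3⟩ := (hVmem n C).1 hC
    exact h2 h3
  have hmono : Monotone V := by
    intro n m hnm C hC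
    obtain ⟨v, -, h2, h3⟩ := (hVmem n C).1 hC
    obtain ⟨w, hw, hw2⟩ := exists_trunc C m
    refine (hVmem m C).2 ⟨w, hw, ?_, hw2⟩
    intro D hD
    refine h2 fun i hi => ?_
    rw [hD i (by omega), ← hw2 i (by omega), h3 i hi]
  have hUn : U = ⋃ n, V n := by
    refine Set.Subset.antisymm ?_ (Set.iUnion_subset hVU)
    intro C hC
    obtain ⟨I, u, hI, hIu⟩ := isOpen_pi_iff.1 hU C hC
    obtain ⟨v, hv, hCv⟩ := exists_trunc C (I.sup id + 1)
    refine Set.mem_iUnion.2 ⟨I.sup id + 1, (hVmem _ C).2 ⟨v, hv, ?_, hCv⟩⟩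
    intro D hD
    refine hIu ?_
    intro i hi
    have hi' : i < I.sup id + 1 := Nat.lt_succ_of_le (Finset.le_sup (f := id) hi)
    have : D i = C i := by rw [hD i hi', hCv i hi']
    rw [this]
    exact (hI i hi).2
  have hV1 : ∀ n, mu (G ∩ V n) ≤ (9 / 10 : ℝ≥0∞) * mu U := by
    intro n
    calc mu (G ∩ V n) = mu (⋃ v ∈ S n, (G ∩ cyl n v)) := by
          congr 1
          simp only [V, Set.inter_iUnion]
      _ ≤ ∑ v ∈ S n, mu (G ∩ cyl n v) := measure_biUnion_finset_le _ _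
      _ ≤ ∑ v ∈ S n, (9 / 10 : ℝ≥0∞) * (2⁻¹ : ℝ≥0∞) ^ n :=
          Finset.sum_le_sum fun v hv => hcon n v (hSlt n v hv)
      _ = (9 / 10 : ℝ≥0∞) * mu (V n) := by
          rw [mu_union n (S n) (hSlt n)]
          simp only [Finset.sum_const, nsmul_eq_mul]
          ring
      _ ≤ (9 / 10 : ℝ≥0∞) * mu U := by gcongr; exact hVU n
  have hGV : G = ⋃ n, G ∩ V n := by
    rw [← Set.inter_iUnion, ← hUn, Set.inter_eq_left.2 hGU]
  have h2 : mu G ≤ (9 / 10 : ℝ≥0∞) * mu U := by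
    have h3 : Monotone fun n => G ∩ V n := fun n m hnm => Set.inter_subset_inter_right G (hmono hnm)
    calc mu G = mu (⋃ n, G ∩ V n) := by rw [← hGV]
      _ = ⨆ n, mu (G ∩ V n) := h3.measure_iUnion
      _ ≤ (9 / 10 : ℝ≥0∞) * mu U := iSup_le hV1
  have h4 : (9 / 10 : ℝ≥0∞) * mu U < mu G := by
    calc (9 / 10 : ℝ≥0∞) * mu U < (9 / 10 : ℝ≥0∞) * ((10 / 9 : ℝ≥0∞) * mu G) := by
          rw [ENNReal.mul_lt_mul_iff_right]
          · exact hUm
          · exact (ENNReal.div_pos (by norm_num) (by norm_num)).ne'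
          · exact ENNReal.div_ne_top (by norm_num) (by norm_num)
      _ = mu G := by
          rw [← mul_assoc]
          have : (9 / 10 : ℝ≥0∞) * (10 / 9 : ℝ≥0∞) = 1 := by
            rw [← ENNReal.toReal_eq_one_iff, ENNReal.toReal_mul, ENNReal.toReal_div,
              ENNReal.toReal_div]
            norm_num
          rw [this, one_mul]
  exact absurd h2 (not_le.2 h4)

instance : NullSingletonClass mu where
  measure_singleton C := by
    have h : ∀ n : ℕ, mu {C} ≤ (2⁻¹ : ℝ≥0∞) ^ n := by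
      intro n
      obtain ⟨v, -, hv⟩ := exists_trunc C n
      rw [← mu_cyl n v]
      exact measure_mono (Set.singleton_subset_iff.2 hv)
    have h2 : Filter.Tendsto (fun n : ℕ => (2⁻¹ : ℝ≥0∞) ^ n) Filter.atTop (nhds 0) :=
      ENNReal.tendsto_pow_atTop_nhds_zero_of_lt_one (by norm_num)
    exact le_antisymm (ge_of_tendsto' h2 h) bot_le

/-- a level at which an increasing covering of a dense set becomes large -/
theorem exists_level {G : Set (ℕ → Bool)} {n0 v0 : ℕ}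
    (hG : (9 / 10 : ℝ≥0∞) * (2⁻¹ : ℝ≥0∞) ^ n0 < mu (G ∩ cyl n0 v0))
    (Q : ℕ → ℕ → Prop) [∀ n, DecidablePred (Q n)]
    (hQ : ∀ n m v w, n ≤ m → v < 2 ^ n → w < 2 ^ m → (∀ i, i < n → w.testBit i = v.testBit i) →
      Q n v → Q m w)
    (hcov : ∀ C, C ∈ G → C ∈ cyl n0 v0 → ∃ n v, v < 2 ^ n ∧ C ∈ cyl n v ∧ Q n v) :
    ∃ n, 2 ^ (n + 1) < 3 * 2 ^ n0 * ((Finset.range (2 ^ n)).filter (fun v => Q n v)).card := by
  classical
  let S : ℕ → Finset ℕ := fun n => (Finset.range (2 ^ n)).filter fun v => Q n v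
  let V : ℕ → Set (ℕ → Bool) := fun n => ⋃ v ∈ S n, cyl n v
  have hSlt : ∀ n v, v ∈ S n → v < 2 ^ n := fun n v hv =>
    Finset.mem_range.1 (Finset.mem_filter.1 hv).1
  have hVmem : ∀ n C, C ∈ V n ↔ ∃ v, v < 2 ^ n ∧ Q n v ∧ C ∈ cyl n v := by
    intro n C
    simp only [V, S, Set.mem_iUnion, Finset.mem_filter, Finset.mem_range]
    constructor
    · rintro ⟨v, ⟨h1, h2⟩, h3⟩
      exact ⟨v, h1, h2, h3⟩
    · rintro ⟨v, h1, h2, h3⟩
      exact ⟨v, ⟨h1, h2⟩, h3⟩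
  have hmono : Monotone V := by
    intro n m hnm C hC
    obtain ⟨v, h1, h2, h3⟩ := (hVmem n C).1 hC
    obtain ⟨w, hw, hw2⟩ := exists_trunc C m
    refine (hVmem m C).2 ⟨w, hw, hQ n m v w hnm h1 hw ?_ h2, hw2⟩
    intro i hi
    rw [← hw2 i (by omega), h3 i hi]
  have hsub : G ∩ cyl n0 v0 ⊆ ⋃ n, V n := by
    rintro C ⟨hC1, hC2⟩
    obtain ⟨n, v, h1, h2, h3⟩ := hcov C hC1 hC2
    exact Set.mem_iUnion.2 ⟨n, (hVmem n C).2 ⟨v, h1, h3, h2⟩⟩
  have h1 : (2 / 3 : ℝ≥0∞) * (2⁻¹ : ℝ≥0∞) ^ n0 < ⨆ n, mu (V n) := by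
    rw [← hmono.measure_iUnion]
    refine lt_of_lt_of_le ?_ (measure_mono hsub)
    refine lt_of_le_of_lt ?_ hG
    gcongr ?_ * _
    rw [← ENNReal.toReal_le_toReal (ENNReal.div_ne_top (by norm_num) (by norm_num))
      (ENNReal.div_ne_top (by norm_num) (by norm_num)), ENNReal.toReal_div, ENNReal.toReal_div]
    norm_num
  obtain ⟨n, hn⟩ := lt_iSup_iff.1 h1
  refine ⟨n, ?_⟩
  have hn' : (2 / 3 : ℝ≥0∞) * (2⁻¹ : ℝ≥0∞) ^ n0 < ((S n).card : ℝ≥0∞) * (2⁻¹ : ℝ≥0∞) ^ n := by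
    rw [← mu_union n (S n) (hSlt n)]
    exact hn
  have hreal : (2 / 3 : ℝ) * (2⁻¹ : ℝ) ^ n0 < ((S n).card : ℝ) * (2⁻¹ : ℝ) ^ n := by
    have h2 := (ENNReal.toReal_lt_toReal (ENNReal.mul_ne_top
      (ENNReal.div_ne_top (by norm_num) (by norm_num)) (by simp)) (ENNReal.mul_ne_top
      (ENNReal.natCast_ne_top _) (by simp))).2 hn'
    simpa [ENNReal.toReal_mul, ENNReal.toReal_pow, ENNReal.toReal_inv, ENNReal.toReal_div] using h2
  have h3 : (2 : ℝ) ^ (n + 1) < 3 * 2 ^ n0 * ((S n).card : ℝ) := by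
    rw [inv_pow, inv_pow, ← div_eq_mul_inv, ← div_eq_mul_inv,
      div_lt_div_iff₀ (by positivity) (by positivity)] at hreal
    rw [pow_succ]
    nlinarith
  exact_mod_cast h3

/-- two large events in a cylinder and a dense set have a common point -/
theorem exists_common {G : Set (ℕ → Bool)} {n0 v0 : ℕ}
    (hG : (9 / 10 : ℝ≥0∞) * (2⁻¹ : ℝ≥0∞) ^ n0 < mu (G ∩ cyl n0 v0))
    {n1 n2 : ℕ} (Q1 Q2 : ℕ → Prop) [DecidablePred Q1] [DecidablePred Q2]
    (h1 : ∀ v, Q1 v → n0 ≤ n1 ∧ ∀ i, i < n0 → v.testBit i = v0.testBit i)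
    (h2 : ∀ v, Q2 v → n0 ≤ n2 ∧ ∀ i, i < n0 → v.testBit i = v0.testBit i)
    (c1 : 2 ^ (n1 + 1) < 3 * 2 ^ n0 * ((Finset.range (2 ^ n1)).filter (fun v => Q1 v)).card)
    (c2 : 2 ^ (n2 + 1) < 3 * 2 ^ n0 * ((Finset.range (2 ^ n2)).filter (fun v => Q2 v)).card) :
    ∃ C, C ∈ G ∧ (∃ v, v < 2 ^ n1 ∧ C ∈ cyl n1 v ∧ Q1 v) ∧
      ∃ v, v < 2 ^ n2 ∧ C ∈ cyl n2 v ∧ Q2 v := by
  classical
  have key : ∀ (n : ℕ) (Q : ℕ → Prop) [DecidablePred Q],
      (∀ v, Q v → n0 ≤ n ∧ ∀ i, i < n0 → v.testBit i = v0.testBit i) →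
      2 ^ (n + 1) < 3 * 2 ^ n0 * ((Finset.range (2 ^ n)).filter (fun v => Q v)).card →
      mu (cyl n0 v0 \ ⋃ v ∈ (Finset.range (2 ^ n)).filter (fun v => Q v), cyl n v) ≤
        (1 / 3 : ℝ≥0∞) * (2⁻¹ : ℝ≥0∞) ^ n0 := by
    intro n Q _ hQ hc
    set S := (Finset.range (2 ^ n)).filter (fun v => Q v) with hS
    have hSlt : ∀ v, v ∈ S → v < 2 ^ n := fun v hv =>
      Finset.mem_range.1 (Finset.mem_filter.1 hv).1
    have hsub : (⋃ v ∈ S, cyl n v) ⊆ cyl n0 v0 := by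
      intro C hC
      simp only [Set.mem_iUnion] at hC
      obtain ⟨v, hv, hC⟩ := hC
      obtain ⟨h3, h4⟩ := hQ v (Finset.mem_filter.1 hv).2
      intro i hi
      rw [hC i (by omega), h4 i hi]
    have hmeas : MeasurableSet (⋃ v ∈ S, cyl n v) :=
      Finset.measurableSet_biUnion _ fun v _ => measurableSet_cyl n v
    rw [measure_sdiff hsub hmeas.nullMeasurableSet (measure_ne_top _ _), mu_cyl, mu_union n S hSlt]
    rw [tsub_le_iff_right]
    have h5 : (2⁻¹ : ℝ) ^ n0 ≤ (1 / 3 : ℝ) * (2⁻¹ : ℝ) ^ n0 + (S.card : ℝ) * (2⁻¹ : ℝ) ^ n := by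
      have h6 : (2 : ℝ) ^ (n + 1) < 3 * 2 ^ n0 * (S.card : ℝ) := by exact_mod_cast hc
      have h7 : (2 / 3 : ℝ) * (2⁻¹ : ℝ) ^ n0 ≤ (S.card : ℝ) * (2⁻¹ : ℝ) ^ n := by
        rw [inv_pow, inv_pow, ← div_eq_mul_inv, ← div_eq_mul_inv,
          div_le_div_iff₀ (by positivity) (by positivity)]
        rw [pow_succ] at h6
        nlinarith
      linarith
    rw [← ENNReal.toReal_le_toReal (by simp) (by
      refine ENNReal.add_ne_top.2 ⟨ENNReal.mul_ne_top ?_ (by simp), ENNReal.mul_ne_top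
        (ENNReal.natCast_ne_top _) (by simp)⟩
      exact ENNReal.div_ne_top (by norm_num) (by norm_num))]
    rw [ENNReal.toReal_add (ENNReal.mul_ne_top
      (ENNReal.div_ne_top (by norm_num) (by norm_num)) (by simp))
      (ENNReal.mul_ne_top (ENNReal.natCast_ne_top _) (by simp))]
    simpa [ENNReal.toReal_mul, ENNReal.toReal_pow, ENNReal.toReal_inv, ENNReal.toReal_div] using h5
  by_contra hcon
  push Not at hcon
  have hsub : G ∩ cyl n0 v0 ⊆
      (cyl n0 v0 \ ⋃ v ∈ (Finset.range (2 ^ n1)).filter (fun v => Q1 v), cyl n1 v) ∪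
      (cyl n0 v0 \ ⋃ v ∈ (Finset.range (2 ^ n2)).filter (fun v => Q2 v), cyl n2 v) := by
    rintro C ⟨hC1, hC2⟩
    by_cases h3 : C ∈ ⋃ v ∈ (Finset.range (2 ^ n1)).filter (fun v => Q1 v), cyl n1 v
    · right
      refine ⟨hC2, fun h4 => ?_⟩
      simp only [Set.mem_iUnion, Finset.mem_filter, Finset.mem_range] at h3 h4
      obtain ⟨v, ⟨h5, h6⟩, h7⟩ := h3
      obtain ⟨w, ⟨h8, h9⟩, h10⟩ := h4
      exact hcon C hC1 ⟨v, h5, h7, h6⟩ w h8 h10 h9
    · left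
      exact ⟨hC2, h3⟩
  have h3 : mu (G ∩ cyl n0 v0) ≤ (1 / 3 : ℝ≥0∞) * (2⁻¹ : ℝ≥0∞) ^ n0 +
      (1 / 3 : ℝ≥0∞) * (2⁻¹ : ℝ≥0∞) ^ n0 :=
    (measure_mono hsub).trans ((measure_union_le _ _).trans
      (add_le_add (key n1 Q1 h1 c1) (key n2 Q2 h2 c2)))
  have h4 := lt_of_lt_of_le hG h3
  rw [← add_mul] at h4
  have h5 : (1 / 3 : ℝ≥0∞) + (1 / 3 : ℝ≥0∞) ≤ (9 / 10 : ℝ≥0∞) := by
    rw [← ENNReal.toReal_le_toReal (ENNReal.add_ne_top.2
      ⟨ENNReal.div_ne_top (by norm_num) (by norm_num),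
      ENNReal.div_ne_top (by norm_num) (by norm_num)⟩)
      (ENNReal.div_ne_top (by norm_num) (by norm_num)), ENNReal.toReal_add
      (ENNReal.div_ne_top (by norm_num) (by norm_num))
      (ENNReal.div_ne_top (by norm_num) (by norm_num)), ENNReal.toReal_div, ENNReal.toReal_div]
    norm_num
  exact absurd h4 (not_lt.2 (by gcongr))

end Helper82Enum
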