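import Mathlib

/-! Closure properties of recursively enumerable predicates. -/

namespace Helper82Enum

open Encodable
open Nat.Partrec (Code)

variable {α β γ : Type*} [Primcodable α] [Primcodable β] [Primcodable γ]

/-- bounded existential search as a Boolean -/
def bAny (f : ℕ → Bool) (N : ℕ) : Bool := Nat.rec false (fun n ih => ih || f n) N

theorem bAny_iff (f : ℕ → Bool) (N : ℕ) : bAny f N = true ↔ ∃ n, n < N ∧ f n = true := by
  induction N with
  | zero => simp [bAny]
  | succ N ih =>
    have : bAny f (N + 1) = (bAny f N || f N) := rfl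
    rw [this, Bool.or_eq_true, ih]
    constructor
    · rintro (⟨n, hn, h⟩ | h)
      · exact ⟨n, by omega, h⟩
      · exact ⟨N, by omega, h⟩
    · rintro ⟨n, hn, h⟩
      rcases Nat.lt_succ_iff_lt_or_eq.1 hn with h1 | h1
      · exact Or.inl ⟨n, h1, h⟩
      · subst h1; exact Or.inr h

/-- bounded universal test as a Boolean -/
def bAll (f : ℕ → Bool) (N : ℕ) : Bool := Nat.rec true (fun n ih => ih && f n) N

theorem bAll_iff (f : ℕ → Bool) (N : ℕ) : bAll f N = true ↔ ∀ n, n < N → f n = true := by
  induction N with
  | zero => simp [bAll]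
  | succ N ih =>
    have : bAll f (N + 1) = (bAll f N && f N) := rfl
    rw [this, Bool.and_eq_true, ih]
    constructor
    · rintro ⟨h1, h2⟩ n hn
      rcases Nat.lt_succ_iff_lt_or_eq.1 hn with h | h
      · exact h1 n h
      · subst h; exact h2
    · intro h
      exact ⟨fun n hn => h n (by omega), h N (by omega)⟩

/-- bounded counting -/
def bCnt (f : ℕ → Bool) (N : ℕ) : ℕ := Nat.rec 0 (fun n ih => cond (f n) (ih + 1) ih) N

theorem bCnt_eq (f : ℕ → Bool) (N : ℕ) :
    bCnt f N = ((Finset.range N).filter (fun n => f n = true)).card := by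
  induction N with
  | zero => simp [bCnt]
  | succ N ih =>
    have : bCnt f (N + 1) = cond (f N) (bCnt f N + 1) (bCnt f N) := rfl
    rw [this, Finset.range_add_one, Finset.filter_insert]
    cases h : f N
    · simp [ih]
    · simp [ih]

theorem computable_bAny {f : α → ℕ → Bool} {g : α → ℕ} (hf : Computable₂ f) (hg : Computable g) :
    Computable fun a => bAny (f a) (g a) := by
  refine Computable.nat_rec (h := fun a p => p.2 || f a p.1) hg (Computable.const false) ?_
  exact (Primrec.or.to_comp).comp (Computable.snd.comp Computable.snd)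
    (hf.comp Computable.fst (Computable.fst.comp Computable.snd))

theorem computable_bAll {f : α → ℕ → Bool} {g : α → ℕ} (hf : Computable₂ f) (hg : Computable g) :
    Computable fun a => bAll (f a) (g a) := by
  refine Computable.nat_rec (h := fun a p => p.2 && f a p.1) hg (Computable.const true) ?_
  exact (Primrec.and.to_comp).comp (Computable.snd.comp Computable.snd)
    (hf.comp Computable.fst (Computable.fst.comp Computable.snd))

theorem computable_bCnt {f : α → ℕ → Bool} {g : α → ℕ} (hf : Computable₂ f) (hg : Computable g) :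
    Computable fun a => bCnt (f a) (g a) := by
  refine Computable.nat_rec (h := fun a p => cond (f a p.1) (p.2 + 1) p.2) hg
    (Computable.const 0) ?_
  exact Computable.cond (hf.comp Computable.fst (Computable.fst.comp Computable.snd))
    (Computable.succ.comp (Computable.snd.comp Computable.snd)) (Computable.snd.comp Computable.snd)

/-- normal form for r.e. predicates -/
theorem re_iff {p : α → Prop} :
    REPred p ↔ ∃ f : α → ℕ → Bool, Computable₂ f ∧ ∀ a, p a ↔ ∃ n, f a n = true := by
  constructor
  · intro h
    obtain ⟨c, hc⟩ := Code.exists_code.1 h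
    refine ⟨fun a n => (Code.evaln n c (encode a)).isSome, ?_, ?_⟩
    · have h1 : Computable fun x : α × ℕ => Code.evaln x.2 c (encode x.1) :=
        Code.primrec_evaln.to_comp.comp
          ((Computable.snd.pair (Computable.const c)).pair (Computable.encode.comp Computable.fst))
      exact (Primrec.option_isSome.to_comp.comp h1)
    · intro a
      have h2 : (Code.eval c (encode a)).Dom ↔ p a := by
        rw [hc]
        simp only [encodek, Part.coe_some, Part.bind_some, Part.map_Dom]
        exact ⟨fun h => h.1, fun h => ⟨h, trivial⟩⟩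
      rw [← h2, Part.dom_iff_mem]
      constructor
      · rintro ⟨y, hy⟩
        obtain ⟨k, hk⟩ := Code.evaln_complete.1 hy
        exact ⟨k, by show (Code.evaln k c (encode a)).isSome = true; rw [Option.mem_def.1 hk]; rfl⟩
      · rintro ⟨n, hn⟩
        obtain ⟨y, hy⟩ := Option.isSome_iff_exists.1 hn
        exact ⟨y, Code.evaln_sound (Option.mem_def.2 hy)⟩
  · rintro ⟨f, hf, h⟩
    have h1 : Partrec fun a => Nat.rfind fun n => Part.some (f a n) := Partrec.rfind hf.partrec₂
    refine h1.dom_re.of_eq fun a => ?_
    rw [h a, Nat.rfind_dom']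
    simp only [Part.mem_some_iff, Part.some_dom]
    constructor
    · rintro ⟨n, hn, -⟩
      exact ⟨n, hn.symm⟩
    · rintro ⟨n, hn⟩
      exact ⟨n, hn.symm, fun _ => trivial⟩

theorem re_of_computable {f : α → Bool} (hf : Computable f) : REPred fun a => f a = true :=
  re_iff.2 ⟨fun a _ => f a, hf.comp Computable.fst, fun a => by simp⟩

theorem re_of_primrec {p : α → Prop} (hp : PrimrecPred p) : REPred p :=
  hp.computablePred.to_re

theorem re_comp {p : β → Prop} (hp : REPred p) {g : α → β} (hg : Computable g) :
    REPred fun a => p (g a) := by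
  obtain ⟨f, hf, h⟩ := re_iff.1 hp
  exact re_iff.2 ⟨fun a n => f (g a) n, hf.comp (hg.comp Computable.fst) Computable.snd,
    fun a => h (g a)⟩

theorem re_and {p q : α → Prop} (hp : REPred p) (hq : REPred q) : REPred fun a => p a ∧ q a := by
  obtain ⟨f, hf, h⟩ := re_iff.1 hp
  obtain ⟨g, hg, h'⟩ := re_iff.1 hq
  refine re_iff.2 ⟨fun a n => f a n.unpair.1 && g a n.unpair.2, ?_, fun a => ?_⟩
  · exact (Primrec.and.to_comp).comp
      (hf.comp Computable.fst (Computable.fst.comp (Computable.unpair.comp Computable.snd)))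
      (hg.comp Computable.fst (Computable.snd.comp (Computable.unpair.comp Computable.snd)))
  · rw [h a, h' a]
    constructor
    · rintro ⟨⟨m, hm⟩, n, hn⟩
      exact ⟨Nat.pair m n, by simp [hm, hn]⟩
    · rintro ⟨n, hn⟩
      rw [Bool.and_eq_true] at hn
      exact ⟨⟨_, hn.1⟩, _, hn.2⟩

theorem re_or {p q : α → Prop} (hp : REPred p) (hq : REPred q) : REPred fun a => p a ∨ q a := by
  obtain ⟨f, hf, h⟩ := re_iff.1 hp
  obtain ⟨g, hg, h'⟩ := re_iff.1 hq
  refine re_iff.2 ⟨fun a n => f a n || g a n, (Primrec.or.to_comp).comp hf hg, fun a => ?_⟩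
  rw [h a, h' a]
  constructor
  · rintro (⟨m, hm⟩ | ⟨m, hm⟩)
    · exact ⟨m, by simp [hm]⟩
    · exact ⟨m, by simp [hm]⟩
  · rintro ⟨n, hn⟩
    rw [Bool.or_eq_true] at hn
    exact hn.imp (fun h => ⟨n, h⟩) (fun h => ⟨n, h⟩)

theorem re_ex {p : α × β → Prop} (hp : REPred p) : REPred fun a => ∃ b, p (a, b) := by
  obtain ⟨f, hf, h⟩ := re_iff.1 hp
  refine re_iff.2 ⟨fun a n => Option.casesOn (decode (α := β) n.unpair.1) false
    (fun b => f (a, b) n.unpair.2), ?_, fun a => ?_⟩
  · have h1 : Computable fun x : α × ℕ => decode (α := β) x.2.unpair.1 :=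
      Computable.decode.comp (Computable.fst.comp (Computable.unpair.comp Computable.snd))
    refine Computable.option_casesOn h1 (Computable.const false) ?_
    exact hf.comp ((Computable.fst.comp Computable.fst).pair Computable.snd)
      (Computable.snd.comp (Computable.unpair.comp (Computable.snd.comp Computable.fst)))
  · constructor
    · rintro ⟨b, hb⟩
      obtain ⟨n, hn⟩ := (h (a, b)).1 hb
      exact ⟨Nat.pair (encode b) n, by simp [hn]⟩
    · rintro ⟨n, hn⟩
      dsimp only at hn
      cases hd : decode (α := β) n.unpair.1 with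
      | none => rw [hd] at hn; simp at hn
      | some b =>
        rw [hd] at hn
        exact ⟨b, (h (a, b)).2 ⟨_, hn⟩⟩

/-- bounded universal quantification -/
theorem re_ball {p : α × ℕ → Prop} (hp : REPred p) {g : α → ℕ} (hg : Computable g) :
    REPred fun a => ∀ j, j < g a → p (a, j) := by
  obtain ⟨f, hf, h⟩ := re_iff.1 hp
  refine re_iff.2 ⟨fun a N => bAll (fun j => bAny (f (a, j)) N) (g a), ?_, fun a => ?_⟩
  · refine computable_bAll (f := fun (x : α × ℕ) j => bAny (f (x.1, j)) x.2) ?_
      (hg.comp Computable.fst)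
    refine computable_bAny (f := fun (x : (α × ℕ) × ℕ) n => f (x.1.1, x.2) n) ?_
      (Computable.snd.comp Computable.fst)
    exact hf.comp (((Computable.fst.comp (Computable.fst.comp Computable.fst))).pair
      (Computable.snd.comp Computable.fst)) Computable.snd
  · constructor
    · intro H
      have H' : ∀ j, ∃ n, j < g a → f (a, j) n = true := by
        intro j
        by_cases hj : j < g a
        · obtain ⟨n, hn⟩ := (h (a, j)).1 (H j hj)
          exact ⟨n, fun _ => hn⟩
        · exact ⟨0, fun h => absurd h hj⟩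
      choose F hF using H'
      refine ⟨(Finset.range (g a)).sup F + 1, ?_⟩
      rw [bAll_iff]
      intro j hj
      rw [bAny_iff]
      exact ⟨F j, Nat.lt_succ_of_le (Finset.le_sup (f := F) (Finset.mem_range.2 hj)), hF j hj⟩
    · rintro ⟨N, hN⟩ j hj
      rw [bAll_iff] at hN
      have := hN j hj
      rw [bAny_iff] at this
      obtain ⟨n, -, hn⟩ := this
      exact (h (a, j)).2 ⟨n, hn⟩

/-- threshold counting -/
theorem re_card {p : α × ℕ → Prop} (hp : REPred p) {g t : α → ℕ} (hg : Computable g)
    (ht : Computable t) [∀ a, DecidablePred fun j => p (a, j)] :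
    REPred fun a => t a < ((Finset.range (g a)).filter (fun j => p (a, j))).card := by
  obtain ⟨f, hf, h⟩ := re_iff.1 hp
  refine re_iff.2 ⟨fun a N => decide (t a < bCnt (fun j => bAny (f (a, j)) N) (g a)), ?_,
    fun a => ?_⟩
  · have h1 : Computable fun (x : α × ℕ) => bCnt (fun j => bAny (f (x.1, j)) x.2) (g x.1) := by
      refine computable_bCnt (f := fun (x : α × ℕ) j => bAny (f (x.1, j)) x.2) ?_
        (hg.comp Computable.fst)
      refine computable_bAny (f := fun (x : (α × ℕ) × ℕ) n => f (x.1.1, x.2) n) ?_
        (Computable.snd.comp Computable.fst)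
      exact hf.comp (((Computable.fst.comp (Computable.fst.comp Computable.fst))).pair
        (Computable.snd.comp Computable.fst)) Computable.snd
    have h2 : Computable₂ fun (a b : ℕ) => decide (a < b) := by
      exact (Primrec.nat_lt.decide).to_comp
    exact h2.comp (ht.comp Computable.fst) h1
  · constructor
    · intro H
      have H' : ∀ j, ∃ n, p (a, j) → f (a, j) n = true := by
        intro j
        by_cases hj : p (a, j)
        · obtain ⟨n, hn⟩ := (h (a, j)).1 hj
          exact ⟨n, fun _ => hn⟩
        · exact ⟨0, fun h => absurd h hj⟩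
      choose F hF using H'
      refine ⟨(Finset.range (g a)).sup F + 1, ?_⟩
      rw [decide_eq_true_eq, bCnt_eq]
      refine lt_of_lt_of_le H (Finset.card_le_card ?_)
      intro j hj
      rw [Finset.mem_filter] at hj ⊢
      refine ⟨hj.1, ?_⟩
      rw [bAny_iff]
      exact ⟨F j, Nat.lt_succ_of_le (Finset.le_sup (f := F) hj.1), hF j hj.2⟩
    · rintro ⟨N, hN⟩
      rw [decide_eq_true_eq, bCnt_eq] at hN
      refine lt_of_lt_of_le hN (Finset.card_le_card ?_)
      intro j hj
      rw [Finset.mem_filter] at hj ⊢
      refine ⟨hj.1, ?_⟩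
      rw [bAny_iff] at hj
      obtain ⟨n, -, hn⟩ := hj.2
      exact (h (a, j)).2 ⟨n, hn⟩

/-- quantification over the members of a list -/
theorem re_list_all {p : α × β → Prop} (hp : REPred p) {g : α → List β} (hg : Computable g) :
    REPred fun a => ∀ b, b ∈ g a → p (a, b) := by
  classical
  obtain ⟨f, hf, h⟩ := re_iff.1 hp
  have h1 : REPred fun x : α × ℕ => ∃ N : ℕ,
      (Option.casesOn ((g x.1)[x.2]?) true (fun b => f (x.1, b) N) : Bool) = true := by
    refine re_ex (p := fun (y : (α × ℕ) × ℕ) =>
      (Option.casesOn ((g y.1.1)[y.1.2]?) true (fun b => f (y.1.1, b) y.2) : Bool) = true) ?_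
    refine re_of_computable ?_
    have h2 : Computable fun y : (α × ℕ) × ℕ => (g y.1.1)[y.1.2]? :=
      Computable.list_getElem?.comp (hg.comp (Computable.fst.comp Computable.fst))
        (Computable.snd.comp Computable.fst)
    refine Computable.option_casesOn h2 (Computable.const true) ?_
    exact hf.comp ((Computable.fst.comp (Computable.fst.comp Computable.fst)).pair Computable.snd)
      (Computable.snd.comp Computable.fst)
  refine (re_ball h1 (Computable.list_length.comp hg)).of_eq fun a => ?_
  constructor
  · intro H b hb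
    obtain ⟨i, hi, rfl⟩ := List.mem_iff_getElem.1 hb
    obtain ⟨N, hN⟩ := H i hi
    simp only [List.getElem?_eq_getElem hi] at hN
    exact (h _).2 ⟨N, hN⟩
  · intro H j hj
    obtain ⟨N, hN⟩ := (h _).1 (H _ (List.getElem_mem hj))
    exact ⟨N, by simp only [List.getElem?_eq_getElem hj]; exact hN⟩

theorem re_list_any {p : α × β → Prop} (hp : REPred p) {g : α → List β} (hg : Computable g) :
    REPred fun a => ∃ b, b ∈ g a ∧ p (a, b) := by
  classical
  obtain ⟨f, hf, h⟩ := re_iff.1 hp
  have h1 : REPred fun a : α => ∃ x : ℕ × ℕ,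
      (Option.casesOn ((g a)[x.1]?) false (fun b => f (a, b) x.2) : Bool) = true := by
    refine re_ex (p := fun (y : α × (ℕ × ℕ)) =>
      (Option.casesOn ((g y.1)[y.2.1]?) false (fun b => f (y.1, b) y.2.2) : Bool) = true) ?_
    refine re_of_computable ?_
    have h2 : Computable fun y : α × (ℕ × ℕ) => (g y.1)[y.2.1]? :=
      Computable.list_getElem?.comp (hg.comp Computable.fst)
        (Computable.fst.comp Computable.snd)
    refine Computable.option_casesOn h2 (Computable.const false) ?_
    exact hf.comp ((Computable.fst.comp Computable.fst).pair Computable.snd)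
      (Computable.snd.comp (Computable.snd.comp Computable.fst))
  refine h1.of_eq fun a => ?_
  constructor
  · rintro ⟨⟨i, N⟩, hN⟩
    by_cases hi : i < (g a).length
    · simp only [List.getElem?_eq_getElem hi] at hN
      exact ⟨_, List.getElem_mem hi, (h _).2 ⟨N, hN⟩⟩
    · simp only [List.getElem?_eq_none (Nat.le_of_not_lt hi)] at hN
      exact absurd hN (by decide)
  · rintro ⟨b, hb, hp⟩
    obtain ⟨i, hi, rfl⟩ := List.mem_iff_getElem.1 hb
    obtain ⟨N, hN⟩ := (h _).1 hp
    exact ⟨(i, N), by simp only [List.getElem?_eq_getElem hi]; exact hN⟩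

/-- the s-m-n theorem for r.e. predicates -/
theorem re_smn {p : α × β → Prop} (hp : REPred p) :
    ∃ f : α → Code, Computable f ∧ ∀ a b, ((f a).eval (encode b)).Dom ↔ p (a, b) := by
  obtain ⟨c, hc⟩ := Code.exists_code.1 hp
  refine ⟨fun a => Code.curry c (encode a), ?_, fun a b => ?_⟩
  · exact Code.primrec₂_curry.to_comp.comp (Computable.const c) Computable.encode
  · rw [Code.eval_curry, hc]
    have h1 : Nat.pair (encode a) (encode b) = encode (a, b) := rfl
    rw [h1]
    simp only [encodek, Part.coe_some, Part.bind_some, Part.map_Dom]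
    exact ⟨fun h => h.1, fun h => ⟨h, trivial⟩⟩

theorem re_eval : REPred fun x : Code × ℕ => (x.1.eval x.2).Dom :=
  Partrec.dom_re (f := fun x : Code × ℕ => x.1.eval x.2) Code.eval_part

end Helper82Enum
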