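import Pool.Agent.Helper82_Enum.Basic
import Pool.Agent.Helper82_Enum.Measure

/-! From almost totality to a base regular structure. -/

namespace Helper82Enum

open Encodable
open Nat.Partrec (Code)

variable {α β γ : Type*} [Primcodable α] [Primcodable β] [Primcodable γ]

/-- monotone and finitary properties of sets -/
structure Cont (Φ : (ℕ → Prop) → Prop) : Prop where
  mono : ∀ S T : ℕ → Prop, (∀ x, S x → T x) → Φ S → Φ T
  fin : ∀ S : ℕ → Prop, Φ S → ∃ L : List ℕ, (∀ x, x ∈ L → S x) ∧ Φ (fun x => x ∈ L)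

theorem Cont.const (P : Prop) : Cont fun _ => P :=
  ⟨fun _ _ _ h => h, fun _ h => ⟨[], by simp, h⟩⟩

theorem Cont.mem (n : ℕ) : Cont fun S => S n :=
  ⟨fun _ _ h h1 => h n h1, fun S h => ⟨[n], by simpa using h, by simp⟩⟩

theorem Cont.and {Φ Ψ : (ℕ → Prop) → Prop} (h1 : Cont Φ) (h2 : Cont Ψ) :
    Cont fun S => Φ S ∧ Ψ S := by
  refine ⟨fun S T h h3 => ⟨h1.mono S T h h3.1, h2.mono S T h h3.2⟩, fun S h => ?_⟩
  obtain ⟨L, h3, h4⟩ := h1.fin S h.1
  obtain ⟨L', h5, h6⟩ := h2.fin S h.2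
  refine ⟨L ++ L', ?_, h1.mono _ _ (fun x hx => List.mem_append.2 (Or.inl hx)) h4,
    h2.mono _ _ (fun x hx => List.mem_append.2 (Or.inr hx)) h6⟩
  intro x hx
  rcases List.mem_append.1 hx with h7 | h7
  · exact h3 x h7
  · exact h5 x h7

theorem Cont.or {Φ Ψ : (ℕ → Prop) → Prop} (h1 : Cont Φ) (h2 : Cont Ψ) :
    Cont fun S => Φ S ∨ Ψ S := by
  refine ⟨fun S T h h3 => h3.imp (h1.mono S T h) (h2.mono S T h), fun S h => ?_⟩
  rcases h with h | h
  · obtain ⟨L, h3, h4⟩ := h1.fin S h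
    exact ⟨L, h3, Or.inl h4⟩
  · obtain ⟨L, h3, h4⟩ := h2.fin S h
    exact ⟨L, h3, Or.inr h4⟩

theorem Cont.ex {ι : Type*} {Φ : ι → (ℕ → Prop) → Prop} (h : ∀ i, Cont (Φ i)) :
    Cont fun S => ∃ i, Φ i S := by
  refine ⟨fun S T hST h3 => ?_, fun S h1 => ?_⟩
  · obtain ⟨i, hi⟩ := h3
    exact ⟨i, (h i).mono S T hST hi⟩
  · obtain ⟨i, hi⟩ := h1
    obtain ⟨L, h3, h4⟩ := (h i).fin S hi
    exact ⟨L, h3, i, h4⟩

theorem Cont.list {Φ : ℕ → (ℕ → Prop) → Prop} (h : ∀ i, Cont (Φ i)) (l : List ℕ) :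
    Cont fun S => ∀ i, i ∈ l → Φ i S := by
  refine ⟨fun S T hST h3 i hi => (h i).mono S T hST (h3 i hi), fun S => ?_⟩
  induction l with
  | nil => intro _; exact ⟨[], by simp, fun j hj => absurd hj (List.not_mem_nil)⟩
  | cons a m ih =>
    intro H
    obtain ⟨L, h1, h2⟩ := ih fun j hj => H j (List.mem_cons_of_mem _ hj)
    obtain ⟨L', h3, h4⟩ := (h a).fin S (H a List.mem_cons_self)
    refine ⟨L ++ L', ?_, ?_⟩
    · intro x hx
      rcases List.mem_append.1 hx with h7 | h7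
      · exact h1 x h7
      · exact h3 x h7
    · intro j hj
      rcases List.mem_cons.1 hj with h5 | h5
      · subst h5
        exact (h j).mono _ _ (fun x hx => List.mem_append.2 (Or.inr hx)) h4
      · exact (h j).mono _ _ (fun x hx => List.mem_append.2 (Or.inl hx)) (h2 j h5)

theorem Cont.ball {Φ : ℕ → (ℕ → Prop) → Prop} (h : ∀ i, Cont (Φ i)) (N : ℕ) :
    Cont fun S => ∀ i, i < N → Φ i S := by
  have h1 := Cont.list h (List.range N)
  simpa [List.mem_range] using h1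

open Classical in
theorem Cont.card {Φ : ℕ → (ℕ → Prop) → Prop} (h : ∀ i, Cont (Φ i)) (t N : ℕ) :
    Cont fun S => t < ((Finset.range N).filter (fun j => Φ j S)).card := by
  constructor
  · intro S T hST h1
    refine lt_of_lt_of_le h1 (Finset.card_le_card ?_)
    intro j hj
    rw [Finset.mem_filter] at hj ⊢
    exact ⟨hj.1, (h j).mono S T hST hj.2⟩
  · intro S h1
    obtain ⟨L, h2, h3⟩ := (Cont.list h ((Finset.range N).filter (fun j => Φ j S)).toList).fin S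
      (fun i hi => (Finset.mem_filter.1 (Finset.mem_toList.1 hi)).2)
    refine ⟨L, h2, lt_of_lt_of_le h1 (Finset.card_le_card ?_)⟩
    intro j hj
    rw [Finset.mem_filter]
    exact ⟨(Finset.mem_filter.1 hj).1, h3 j (Finset.mem_toList.2 hj)⟩

theorem ho_cont {Φ : (ℕ → Prop) → Prop} (h : Cont Φ) (A : Set ℕ) :
    Ho (fun L => Φ (fun x => x ∈ L)) A ↔ Φ (fun x => x ∈ A) := by
  constructor
  · rintro ⟨L, h1, h2⟩
    exact h.mono _ _ h1 h2
  · intro h1
    obtain ⟨L, h2, h3⟩ := h.fin _ h1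
    exact ⟨L, h2, h3⟩

/-- the part of `hat C` given by the first `n` bits `v` of `C` -/
def hatF (n v x : ℕ) : Bool :=
  decide (x / 2 < n) && ((decide (x % 2 = 0) && v.testBit (x / 2)) ||
    (decide (x % 2 = 1) && !(v.testBit (x / 2))))

theorem hatF_iff (n v x : ℕ) : hatF n v x = true ↔ x / 2 < n ∧
    ((x % 2 = 0 ∧ v.testBit (x / 2) = true) ∨ (x % 2 = 1 ∧ v.testBit (x / 2) = false)) := by
  unfold hatF
  rw [Bool.and_eq_true, Bool.or_eq_true, Bool.and_eq_true, Bool.and_eq_true]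
  simp only [decide_eq_true_eq, Bool.not_eq_true']

theorem hatF_sound {n v x : ℕ} {C : ℕ → Bool} (hC : C ∈ cyl n v) (h : hatF n v x = true) :
    x ∈ hat C := by
  rw [hatF_iff] at h
  obtain ⟨h1, h2⟩ := h
  rw [← hC _ h1] at h2
  exact h2

theorem hatF_complete {n v x : ℕ} {C : ℕ → Bool} (hC : C ∈ cyl n v) (hx : x / 2 < n)
    (h : x ∈ hat C) : hatF n v x = true := by
  rw [hatF_iff, ← hC _ hx]
  exact ⟨hx, h⟩

theorem hatF_mono {n m v w x : ℕ} (hnm : n ≤ m)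
    (hvw : ∀ i, i < n → w.testBit i = v.testBit i) (h : hatF n v x = true) :
    hatF m w x = true := by
  rw [hatF_iff] at h ⊢
  obtain ⟨h1, h2⟩ := h
  rw [hvw _ h1]
  exact ⟨by omega, h2⟩

/-- enumeration of `m` by the operator `g` from the join with partial information -/
def GG (g : Code) (m : ℕ) (S : ℕ → Prop) (n v : ℕ) : Prop :=
  ∃ l : List ℕ, (g.eval (encode (m, l))).Dom ∧
    ∀ x, x ∈ l → ((x % 2 = 0 ∧ S (x / 2)) ∨ (x % 2 = 1 ∧ hatF n v (x / 2) = true))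

/-- the guess `w` at stage `s` is refuted -/
def GInc (g : Code) (s w : ℕ) (S : ℕ → Prop) (n v : ℕ) : Prop :=
  ∃ m, m < s ∧ ((w.testBit m = false ∧ GG g (2 * m) S n v) ∨
    (w.testBit m = true ∧ GG g (2 * m + 1) S n v))

/-- all members of the list are in the finite part -/
def hatAll (n v : ℕ) (l : List ℕ) : Bool :=
  bAll (fun j => Option.casesOn (l[j]?) true (fun x => hatF n v x)) l.length

theorem hatAll_iff (n v : ℕ) (l : List ℕ) : hatAll n v l = true ↔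
    ∀ x, x ∈ l → hatF n v x = true := by
  unfold hatAll
  rw [bAll_iff]
  constructor
  · intro H x hx
    obtain ⟨i, hi, rfl⟩ := List.mem_iff_getElem.1 hx
    have := H i hi
    rw [List.getElem?_eq_getElem hi] at this
    exact this
  · intro H j hj
    rw [List.getElem?_eq_getElem hj]
    exact H _ (List.getElem_mem hj)

/-- decision made by the guess `w` at stage `s` -/
def decB (d : Code) (a s w : ℕ) : Bool :=
  bAny (fun k => (Code.evaln s d (Nat.pair a k)).isSome &&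
    hatAll s w (Denumerable.ofNat (List ℕ) k)) s

theorem decB_iff (d : Code) (a s w : ℕ) : decB d a s w = true ↔
    ∃ l : List ℕ, encode l < s ∧ (Code.evaln s d (encode (a, l))).isSome = true ∧
      ∀ x, x ∈ l → hatF s w x = true := by
  unfold decB
  rw [bAny_iff]
  constructor
  · rintro ⟨k, hk, h⟩
    rw [Bool.and_eq_true, hatAll_iff] at h
    refine ⟨Denumerable.ofNat (List ℕ) k, by simpa using hk, ?_, h.2⟩
    have h1 : encode (a, Denumerable.ofNat (List ℕ) k) = Nat.pair a k := by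
      rw [encode_prod_val, Denumerable.encode_ofNat]
      rfl
    rw [h1]
    exact h.1
  · rintro ⟨l, h1, h2, h3⟩
    refine ⟨encode l, h1, ?_⟩
    rw [Bool.and_eq_true, hatAll_iff, Denumerable.ofNat_encode]
    exact ⟨h2, h3⟩

/-- the decisive event at level `n` -/
def GQ (g d : Code) (n0 v0 : ℕ) (b : Bool) (a s : ℕ) (S : ℕ → Prop) (n v : ℕ) : Prop :=
  (n0 ≤ n ∧ ∀ i, i < n0 → v.testBit i = v0.testBit i) ∧
    ∀ w, w < 2 ^ s → (decB d a s w = b ∨ GInc g s w S n v)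

open Classical in
/-- the majority event -/
def GPhi (g d : Code) (n0 v0 : ℕ) (b : Bool) (a s : ℕ) (S : ℕ → Prop) : Prop :=
  ∃ n, 2 ^ (n + 1) / (3 * 2 ^ n0) <
    ((Finset.range (2 ^ n)).filter (fun v => GQ g d n0 v0 b a s S n v)).card

theorem cont_GG (g : Code) (m n v : ℕ) : Cont fun S => GG g m S n v := by
  unfold GG
  refine Cont.ex fun l => (Cont.const _).and (Cont.list (fun x => ?_) l)
  exact ((Cont.const _).and (Cont.mem _)).or (Cont.const _)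

theorem cont_GInc (g : Code) (s w n v : ℕ) : Cont fun S => GInc g s w S n v := by
  unfold GInc
  refine Cont.ex fun m => (Cont.const _).and ?_
  exact ((Cont.const _).and (cont_GG g _ n v)).or ((Cont.const _).and (cont_GG g _ n v))

theorem cont_GQ (g d : Code) (n0 v0 : ℕ) (b : Bool) (a s n v : ℕ) :
    Cont fun S => GQ g d n0 v0 b a s S n v := by
  unfold GQ
  exact (Cont.const _).and (Cont.ball (fun w => (Cont.const _).or (cont_GInc g s w n v)) _)

theorem cont_GPhi (g d : Code) (n0 v0 : ℕ) (b : Bool) (a s : ℕ) :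
    Cont fun S => GPhi g d n0 v0 b a s S := by
  unfold GPhi
  exact Cont.ex fun n => Cont.card (fun v => cont_GQ g d n0 v0 b a s n v) _ _

theorem GG_mono {g : Code} {m : ℕ} {S : ℕ → Prop} {n n' v v' : ℕ} (hn : n ≤ n')
    (hv : ∀ i, i < n → v'.testBit i = v.testBit i) (h : GG g m S n v) : GG g m S n' v' := by
  obtain ⟨l, h1, h2⟩ := h
  exact ⟨l, h1, fun x hx => (h2 x hx).imp id fun h3 => ⟨h3.1, hatF_mono hn hv h3.2⟩⟩

theorem GInc_mono {g : Code} {s s' w w' : ℕ} {S : ℕ → Prop} {n n' v v' : ℕ} (hs : s ≤ s')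
    (hw : ∀ i, i < s → w'.testBit i = w.testBit i) (hn : n ≤ n')
    (hv : ∀ i, i < n → v'.testBit i = v.testBit i) (h : GInc g s w S n v) :
    GInc g s' w' S n' v' := by
  obtain ⟨m, hm, h⟩ := h
  refine ⟨m, by omega, ?_⟩
  rw [hw m hm]
  exact h.imp (fun h => ⟨h.1, GG_mono hn hv h.2⟩) (fun h => ⟨h.1, GG_mono hn hv h.2⟩)

theorem decB_mono {d : Code} {a s s' w w' : ℕ} (hs : s ≤ s')
    (hw : ∀ i, i < s → w'.testBit i = w.testBit i) (h : decB d a s w = true) :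
    decB d a s' w' = true := by
  rw [decB_iff] at h ⊢
  obtain ⟨l, h1, h2, h3⟩ := h
  refine ⟨l, by omega, ?_, fun x hx => hatF_mono hs hw (h3 x hx)⟩
  obtain ⟨y, hy⟩ := Option.isSome_iff_exists.1 h2
  have := Code.evaln_mono hs (Option.mem_def.2 hy)
  rw [Option.mem_def.1 this]
  rfl

theorem GQ_mono {g d : Code} {n0 v0 a s s' : ℕ} {S : ℕ → Prop} {n n' v v' : ℕ} (hs : s ≤ s')
    (hn : n ≤ n') (hv : ∀ i, i < n → v'.testBit i = v.testBit i)
    (h : GQ g d n0 v0 true a s S n v) : GQ g d n0 v0 true a s' S n' v' := by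
  obtain ⟨⟨h1, h2⟩, h3⟩ := h
  refine ⟨⟨by omega, fun i hi => ?_⟩, fun w hw => ?_⟩
  · rw [hv i (by omega), h2 i hi]
  · have hlt : w % 2 ^ s < 2 ^ s := Nat.mod_lt _ (by positivity)
    have hbit : ∀ i, i < s → w.testBit i = (w % 2 ^ s).testBit i := by
      intro i hi
      rw [Nat.testBit_mod_two_pow]
      simp [hi]
    rcases h3 _ hlt with h4 | h4
    · exact Or.inl (decB_mono hs hbit h4)
    · exact Or.inr (GInc_mono hs hbit hn hv h4)

/-- monotonicity in the level only, for both kinds of events -/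
theorem GQ_mono' {g d : Code} {n0 v0 a s : ℕ} {b : Bool} {S : ℕ → Prop} {n n' v v' : ℕ}
    (hn : n ≤ n') (hv : ∀ i, i < n → v'.testBit i = v.testBit i)
    (h : GQ g d n0 v0 b a s S n v) : GQ g d n0 v0 b a s S n' v' := by
  obtain ⟨⟨h1, h2⟩, h3⟩ := h
  refine ⟨⟨by omega, fun i hi => ?_⟩, fun w hw => ?_⟩
  · rw [hv i (by omega), h2 i hi]
  · exact (h3 w hw).imp id (GInc_mono le_rfl (fun i _ => rfl) hn hv)

/-- the point `C` is good for the pair of operators `g`, `d` with witness `Z` -/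
structure GoodZ (A : Set ℕ) (g d : Code) (C Z : ℕ → Bool) : Prop where
  hg : ∀ m, m ∈ hat Z ↔ ∃ l : List ℕ, (g.eval (encode (m, l))).Dom ∧
    ∀ x, x ∈ l → x ∈ join A (hat C)
  hd : ∀ a, a ∈ A ↔ ∃ l : List ℕ, (d.eval (encode (a, l))).Dom ∧ ∀ x, x ∈ l → x ∈ hat Z

section good

variable {A : Set ℕ} {g d : Code} {C Z : ℕ → Bool}

theorem GoodZ.GG_sound (h : GoodZ A g d C Z) {m n v : ℕ} (hC : C ∈ cyl n v)
    (h1 : GG g m (fun x => x ∈ A) n v) : m ∈ hat Z := by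
  obtain ⟨l, h2, h3⟩ := h1
  rw [h.hg]
  refine ⟨l, h2, fun x hx => ?_⟩
  exact (h3 x hx).imp id fun h4 => ⟨h4.1, hatF_sound hC h4.2⟩

theorem GoodZ.GG_complete (h : GoodZ A g d C Z) {m : ℕ} (hm : m ∈ hat Z) :
    ∃ n1, ∀ n v, n1 ≤ n → C ∈ cyl n v → GG g m (fun x => x ∈ A) n v := by
  obtain ⟨l, h2, h3⟩ := (h.hg m).1 hm
  refine ⟨l.sum + 1, fun n v hn hC => ⟨l, h2, fun x hx => ?_⟩⟩
  refine (h3 x hx).imp id fun h4 => ⟨h4.1, hatF_complete hC ?_ h4.2⟩
  have : x ≤ l.sum := List.single_le_sum (by simp) x hx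
  omega

theorem GoodZ.no_inc (h : GoodZ A g d C Z) {s w n v : ℕ} (hC : C ∈ cyl n v) (hZ : Z ∈ cyl s w) :
    ¬ GInc g s w (fun x => x ∈ A) n v := by
  rintro ⟨m, hm, ⟨h1, h2⟩ | ⟨h1, h2⟩⟩
  · have h3 := h.GG_sound hC h2
    rw [mem_hat_even, hZ m hm, h1] at h3
    exact absurd h3 (by decide)
  · have h3 := h.GG_sound hC h2
    rw [mem_hat_odd, hZ m hm, h1] at h3
    exact absurd h3 (by decide)

theorem GoodZ.inc (h : GoodZ A g d C Z) {s u w : ℕ} (hu : u < 2 ^ s) (hw : w < 2 ^ s)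
    (hZ : Z ∈ cyl s u) (huw : w ≠ u) :
    ∃ n1, ∀ n v, n1 ≤ n → C ∈ cyl n v → GInc g s w (fun x => x ∈ A) n v := by
  have h1 : ∃ m, m < s ∧ w.testBit m ≠ u.testBit m := by
    by_contra hcon
    push Not at hcon
    exact huw (trunc_unique hw hu hcon)
  obtain ⟨m, hm, h2⟩ := h1
  rw [← hZ m hm] at h2
  cases h3 : Z m with
  | true =>
    obtain ⟨n1, hn1⟩ := h.GG_complete ((mem_hat_even Z m).2 h3)
    refine ⟨n1, fun n v hn hC => ⟨m, hm, Or.inl ⟨?_, hn1 n v hn hC⟩⟩⟩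
    rw [h3] at h2
    simpa using h2
  | false =>
    obtain ⟨n1, hn1⟩ := h.GG_complete ((mem_hat_odd Z m).2 h3)
    refine ⟨n1, fun n v hn hC => ⟨m, hm, Or.inr ⟨?_, hn1 n v hn hC⟩⟩⟩
    rw [h3] at h2
    simpa using h2

theorem GoodZ.inc_all (h : GoodZ A g d C Z) {s u : ℕ} (hu : u < 2 ^ s) (hZ : Z ∈ cyl s u) :
    ∃ n1, ∀ n v, n1 ≤ n → C ∈ cyl n v → ∀ w, w < 2 ^ s → w ≠ u →
      GInc g s w (fun x => x ∈ A) n v := by
  have H : ∀ w, ∃ n1, w < 2 ^ s → w ≠ u → ∀ n v, n1 ≤ n → C ∈ cyl n v →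
      GInc g s w (fun x => x ∈ A) n v := by
    intro w
    by_cases h1 : w < 2 ^ s ∧ w ≠ u
    · obtain ⟨n1, hn1⟩ := h.inc hu h1.1 hZ h1.2
      exact ⟨n1, fun _ _ => hn1⟩
    · exact ⟨0, fun h2 h3 => absurd ⟨h2, h3⟩ h1⟩
  choose F hF using H
  refine ⟨(Finset.range (2 ^ s)).sup F, fun n v hn hC w hw hwu => hF w hw hwu n v ?_ hC⟩
  exact (Finset.le_sup (f := F) (Finset.mem_range.2 hw)).trans hn

theorem GoodZ.dec_sound (h : GoodZ A g d C Z) {a s w : ℕ} (hZ : Z ∈ cyl s w)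
    (h1 : decB d a s w = true) : a ∈ A := by
  rw [decB_iff] at h1
  obtain ⟨l, -, h2, h3⟩ := h1
  rw [h.hd]
  refine ⟨l, ?_, fun x hx => hatF_sound hZ (h3 x hx)⟩
  obtain ⟨y, hy⟩ := Option.isSome_iff_exists.1 h2
  exact Part.dom_iff_mem.2 ⟨y, Code.evaln_sound (Option.mem_def.2 hy)⟩

theorem GoodZ.dec_complete (h : GoodZ A g d C Z) {a : ℕ} (ha : a ∈ A) :
    ∃ s, ∀ w, Z ∈ cyl s w → decB d a s w = true := by
  obtain ⟨l, h1, h2⟩ := (h.hd a).1 ha
  obtain ⟨y, hy⟩ := Part.dom_iff_mem.1 h1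
  obtain ⟨k, hk⟩ := Code.evaln_complete.1 hy
  refine ⟨max k (max (encode l + 1) (l.sum + 1)), fun w hZ => ?_⟩
  rw [decB_iff]
  refine ⟨l, ?_, ?_, fun x hx => hatF_complete hZ ?_ (h2 x hx)⟩
  · exact lt_of_lt_of_le (Nat.lt_succ_self _) ((le_max_left _ _).trans (le_max_right _ _))
  · have := Code.evaln_mono (le_max_left k (max (encode l + 1) (l.sum + 1))) hk
    rw [Option.mem_def.1 this]
    rfl
  · have h3 : x ≤ l.sum := List.single_le_sum (by simp) x hx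
    have h4 : l.sum + 1 ≤ max k (max (encode l + 1) (l.sum + 1)) :=
      (le_max_right _ _).trans (le_max_right _ _)
    omega

end good

section phi

open Classical

variable {A : Set ℕ} {g d : Code} {n0 v0 : ℕ}

/-- the set of good points -/
def Good (A : Set ℕ) (g d : Code) : Set (ℕ → Bool) := {C | ∃ Z, GoodZ A g d C Z}

theorem GPhi_iff {b : Bool} {a s : ℕ} {S : ℕ → Prop} : GPhi g d n0 v0 b a s S ↔
    ∃ n, 2 ^ (n + 1) < 3 * 2 ^ n0 *
      ((Finset.range (2 ^ n)).filter (fun v => GQ g d n0 v0 b a s S n v)).card := by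
  unfold GPhi
  refine exists_congr fun n => ?_
  rw [Nat.div_lt_iff_lt_mul (by positivity), mul_comm]

open scoped ENNReal

theorem GPhi_excl (hG : (9 / 10 : ℝ≥0∞) * (2⁻¹ : ℝ≥0∞) ^ n0 < mu (Good A g d ∩ cyl n0 v0))
    {a s : ℕ} (h1 : GPhi g d n0 v0 true a s (fun x => x ∈ A))
    (h2 : GPhi g d n0 v0 false a s (fun x => x ∈ A)) : False := by
  obtain ⟨n1, h3⟩ := GPhi_iff.1 h1
  obtain ⟨n2, h4⟩ := GPhi_iff.1 h2
  obtain ⟨C, ⟨Z, hZ⟩, ⟨v1, -, h5, h6⟩, ⟨v2, -, h7, h8⟩⟩ := exists_common hG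
    (fun v => GQ g d n0 v0 true a s (fun x => x ∈ A) n1 v)
    (fun v => GQ g d n0 v0 false a s (fun x => x ∈ A) n2 v)
    (fun v hv => hv.1) (fun v hv => hv.1) h3 h4
  obtain ⟨u, hu, hu2⟩ := exists_trunc Z s
  rcases h6.2 u hu with h9 | h9
  · rcases h8.2 u hu with h10 | h10
    · rw [h9] at h10
      exact absurd h10 (by decide)
    · exact hZ.no_inc h7 hu2 h10
  · exact hZ.no_inc h5 hu2 h9

theorem GPhi_neg (hG : (9 / 10 : ℝ≥0∞) * (2⁻¹ : ℝ≥0∞) ^ n0 < mu (Good A g d ∩ cyl n0 v0))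
    {a : ℕ} (ha : a ∉ A) (s : ℕ) : GPhi g d n0 v0 false a s (fun x => x ∈ A) := by
  rw [GPhi_iff]
  refine exists_level hG (fun n v => GQ g d n0 v0 false a s (fun x => x ∈ A) n v)
    (fun n m v w hnm _ _ hvw h => GQ_mono' hnm hvw h) ?_
  rintro C ⟨Z, hZ⟩ hC
  obtain ⟨u, hu, hu2⟩ := exists_trunc Z s
  obtain ⟨n1, hn1⟩ := hZ.inc_all hu hu2
  obtain ⟨v, hv, hv2⟩ := exists_trunc C (max n0 n1)
  refine ⟨max n0 n1, v, hv, hv2, ⟨le_max_left _ _, fun i hi => ?_⟩, fun w hw => ?_⟩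
  · rw [← hv2 i (lt_of_lt_of_le hi (le_max_left _ _)), hC i hi]
  · by_cases hwu : w = u
    · left
      rw [hwu]
      by_contra hcon
      exact ha (hZ.dec_sound hu2 (by simpa using hcon))
    · exact Or.inr (hn1 _ v (le_max_right _ _) hv2 w hw hwu)

theorem GPhi_pos (hG : (9 / 10 : ℝ≥0∞) * (2⁻¹ : ℝ≥0∞) ^ n0 < mu (Good A g d ∩ cyl n0 v0))
    {a : ℕ} (ha : a ∈ A) : ∃ s, GPhi g d n0 v0 true a s (fun x => x ∈ A) := by
  obtain ⟨n, hn⟩ := exists_level hG (fun n v => GQ g d n0 v0 true a n (fun x => x ∈ A) n v)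
    (fun n m v w hnm _ _ hvw h => GQ_mono hnm hnm hvw h) (by
      rintro C ⟨Z, hZ⟩ hC
      obtain ⟨s, hs⟩ := hZ.dec_complete ha
      obtain ⟨u, hu, hu2⟩ := exists_trunc Z s
      obtain ⟨n1, hn1⟩ := hZ.inc_all hu hu2
      obtain ⟨v, hv, hv2⟩ := exists_trunc C (max s (max n0 n1))
      have hn0 : n0 ≤ max s (max n0 n1) := (le_max_left _ _).trans (le_max_right _ _)
      have hnn1 : n1 ≤ max s (max n0 n1) := (le_max_right _ _).trans (le_max_right _ _)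
      refine ⟨max s (max n0 n1), v, hv, hv2, ?_⟩
      refine GQ_mono (s := s) (n := max s (max n0 n1)) (v := v) (le_max_left _ _) le_rfl
        (fun _ _ => rfl) ?_
      refine ⟨⟨hn0, fun i hi => ?_⟩, fun w hw => ?_⟩
      · rw [← hv2 i (lt_of_lt_of_le hi hn0), hC i hi]
      · by_cases hwu : w = u
        · left
          rw [hwu]
          exact hs u hu2
        · exact Or.inr (hn1 _ v hnn1 hv2 w hw hwu))
  exact ⟨n, GPhi_iff.2 ⟨n, hn⟩⟩

end phi

end Helper82Enum
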