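import Pool.Agent.Helper82_Enum.Total
import Pool.Agent.Helper82_Enum.Final

/-! Recursive enumerability of the majority events, and the main theorem. -/

namespace Helper82Enum

open Encodable
open Nat.Partrec (Code)

variable {α β γ : Type*} [Primcodable α] [Primcodable β] [Primcodable γ]

theorem primrec_pow : Primrec₂ fun a b : ℕ => a ^ b := Primrec₂.unpaired'.1 Nat.Primrec.pow

theorem computable_testBit : Computable fun x : ℕ × ℕ => x.1.testBit x.2 := by
  have h1 : Primrec fun x : ℕ × ℕ => decide (x.1 / 2 ^ x.2 % 2 = 1) :=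
    (Primrec.eq.comp (Primrec.nat_mod.comp (Primrec.nat_div.comp Primrec.fst
      (primrec_pow.comp (Primrec.const 2) Primrec.snd)) (Primrec.const 2))
      (Primrec.const 1)).decide
  refine h1.to_comp.of_eq fun x => ?_
  rw [Nat.testBit_eq_decide_div_mod_eq]

theorem computable_hatF : Computable fun x : (ℕ × ℕ) × ℕ => hatF x.1.1 x.1.2 x.2 := by
  have hhalf : Primrec fun x : (ℕ × ℕ) × ℕ => x.2 / 2 :=
    Primrec.nat_div.comp Primrec.snd (Primrec.const 2)
  have hmod : Primrec fun x : (ℕ × ℕ) × ℕ => x.2 % 2 :=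
    Primrec.nat_mod.comp Primrec.snd (Primrec.const 2)
  have h1 : Computable fun x : (ℕ × ℕ) × ℕ => decide (x.2 / 2 < x.1.1) :=
    (Primrec.nat_lt.comp hhalf (Primrec.fst.comp Primrec.fst)).decide.to_comp
  have h2 : Computable fun x : (ℕ × ℕ) × ℕ => decide (x.2 % 2 = 0) :=
    (Primrec.eq.comp hmod (Primrec.const 0)).decide.to_comp
  have h3 : Computable fun x : (ℕ × ℕ) × ℕ => decide (x.2 % 2 = 1) :=
    (Primrec.eq.comp hmod (Primrec.const 1)).decide.to_comp
  have h4 : Computable fun x : (ℕ × ℕ) × ℕ => x.1.2.testBit (x.2 / 2) :=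
    computable_testBit.comp (g := fun x : (ℕ × ℕ) × ℕ => (x.1.2, x.2 / 2))
      ((Computable.snd.comp Computable.fst).pair hhalf.to_comp)
  unfold hatF
  exact (Primrec.and.to_comp).comp h1 ((Primrec.or.to_comp).comp ((Primrec.and.to_comp).comp h2 h4)
    ((Primrec.and.to_comp).comp h3 (Primrec.not.to_comp.comp h4)))

theorem computable_hatAll : Computable fun x : (ℕ × ℕ) × List ℕ => hatAll x.1.1 x.1.2 x.2 := by
  have h1 : Computable fun z : ((ℕ × ℕ) × List ℕ) × ℕ => z.1.2[z.2]? :=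
    Computable.list_getElem?.comp (Computable.snd.comp Computable.fst) Computable.snd
  have h2 : Computable₂ fun (z : ((ℕ × ℕ) × List ℕ) × ℕ) (y : ℕ) => hatF z.1.1.1 z.1.1.2 y :=
    computable_hatF.comp (g := fun w : (((ℕ × ℕ) × List ℕ) × ℕ) × ℕ => (w.1.1.1, w.2))
      ((Computable.fst.comp (Computable.fst.comp Computable.fst)).pair Computable.snd)
  have h3 : Computable₂ fun (x : (ℕ × ℕ) × List ℕ) (j : ℕ) =>
      (Option.casesOn (x.2[j]?) true (fun y => hatF x.1.1 x.1.2 y) : Bool) :=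
    Computable.option_casesOn h1 (Computable.const true) h2
  have h4 : Computable fun x : (ℕ × ℕ) × List ℕ => x.2.length :=
    Computable.list_length.comp Computable.snd
  exact computable_bAll h3 h4

theorem computable_decB (d : Code) : Computable fun x : (ℕ × ℕ) × ℕ =>
    decB d x.1.1 x.1.2 x.2 := by
  unfold decB
  refine computable_bAny (f := fun (x : (ℕ × ℕ) × ℕ) k =>
    (Code.evaln x.1.2 d (Nat.pair x.1.1 k)).isSome &&
      hatAll x.1.2 x.2 (Denumerable.ofNat (List ℕ) k)) ?_ (Computable.snd.comp Computable.fst)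
  have h1 : Computable fun z : ((ℕ × ℕ) × ℕ) × ℕ =>
      (Code.evaln z.1.1.2 d (Nat.pair z.1.1.1 z.2)).isSome :=
    computable_isSome_evaln.comp (g := fun z : ((ℕ × ℕ) × ℕ) × ℕ =>
      ((z.1.1.2, d), Nat.pair z.1.1.1 z.2))
      ((((Computable.snd.comp (Computable.fst.comp Computable.fst)).pair
        (Computable.const d))).pair
        (Primrec₂.natPair.to_comp.comp (Computable.fst.comp (Computable.fst.comp Computable.fst))
          Computable.snd))
  have h2 : Computable fun z : ((ℕ × ℕ) × ℕ) × ℕ =>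
      hatAll z.1.1.2 z.1.2 (Denumerable.ofNat (List ℕ) z.2) :=
    computable_hatAll.comp (g := fun z : ((ℕ × ℕ) × ℕ) × ℕ =>
      ((z.1.1.2, z.1.2), Denumerable.ofNat (List ℕ) z.2))
      ((((Computable.snd.comp (Computable.fst.comp Computable.fst)).pair
        (Computable.snd.comp Computable.fst))).pair ((Computable.ofNat _).comp Computable.snd))
  exact (Primrec.and.to_comp).comp h1 h2

theorem re_GG (g : Code) : REPred fun x : (ℕ × List ℕ) × (ℕ × ℕ) =>
    GG g x.1.1 (fun y => y ∈ x.1.2) x.2.1 x.2.2 := by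
  unfold GG
  refine re_ex (p := fun z : ((ℕ × List ℕ) × (ℕ × ℕ)) × List ℕ =>
    (g.eval (encode (z.1.1.1, z.2))).Dom ∧
    ∀ x, x ∈ z.2 → ((x % 2 = 0 ∧ x / 2 ∈ z.1.1.2) ∨
      (x % 2 = 1 ∧ hatF z.1.2.1 z.1.2.2 (x / 2) = true))) ?_
  refine re_and ?_ ?_
  · exact re_comp re_eval (g := fun z : ((ℕ × List ℕ) × (ℕ × ℕ)) × List ℕ =>
      (g, encode (z.1.1.1, z.2))) ((Computable.const g).pair (Computable.encode.comp
        ((Computable.fst.comp (Computable.fst.comp Computable.fst)).pair Computable.snd)))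
  · refine re_list_all (p := fun w : (((ℕ × List ℕ) × (ℕ × ℕ)) × List ℕ) × ℕ =>
      ((w.2 % 2 = 0 ∧ w.2 / 2 ∈ w.1.1.1.2) ∨
      (w.2 % 2 = 1 ∧ hatF w.1.1.2.1 w.1.1.2.2 (w.2 / 2) = true))) ?_
      (g := fun z : ((ℕ × List ℕ) × (ℕ × ℕ)) × List ℕ => z.2) Computable.snd
    have hhalf : Computable fun w : (((ℕ × List ℕ) × (ℕ × ℕ)) × List ℕ) × ℕ => w.2 / 2 :=
      (Primrec.nat_div.comp Primrec.snd (Primrec.const 2)).to_comp
    refine re_or (re_and ?_ ?_) (re_and ?_ ?_)
    · exact re_of_primrec (Primrec.eq.comp (Primrec.nat_mod.comp Primrec.snd (Primrec.const 2))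
        (Primrec.const 0))
    · exact re_mem_comp (f := fun w : (((ℕ × List ℕ) × (ℕ × ℕ)) × List ℕ) × ℕ => w.2 / 2)
        (g := fun w : (((ℕ × List ℕ) × (ℕ × ℕ)) × List ℕ) × ℕ => w.1.1.1.2) hhalf
        (Computable.snd.comp (Computable.fst.comp (Computable.fst.comp Computable.fst)))
    · exact re_of_primrec (Primrec.eq.comp (Primrec.nat_mod.comp Primrec.snd (Primrec.const 2))
        (Primrec.const 1))
    · refine re_of_computable ?_
      exact computable_hatF.comp (g := fun w : (((ℕ × List ℕ) × (ℕ × ℕ)) × List ℕ) × ℕ =>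
        ((w.1.1.2.1, w.1.1.2.2), w.2 / 2))
        (((Computable.fst.comp (Computable.snd.comp (Computable.fst.comp Computable.fst))).pair
          (Computable.snd.comp (Computable.snd.comp (Computable.fst.comp Computable.fst)))).pair
          hhalf)

theorem re_GInc (g : Code) : REPred fun x : ((ℕ × ℕ) × List ℕ) × (ℕ × ℕ) =>
    GInc g x.1.1.1 x.1.1.2 (fun y => y ∈ x.1.2) x.2.1 x.2.2 := by
  unfold GInc
  refine re_ex (p := fun z : (((ℕ × ℕ) × List ℕ) × (ℕ × ℕ)) × ℕ =>
    z.2 < z.1.1.1.1 ∧ ((z.1.1.1.2.testBit z.2 = false ∧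
      GG g (2 * z.2) (fun y => y ∈ z.1.1.2) z.1.2.1 z.1.2.2) ∨
    (z.1.1.1.2.testBit z.2 = true ∧
      GG g (2 * z.2 + 1) (fun y => y ∈ z.1.1.2) z.1.2.1 z.1.2.2))) ?_
  have hbit : Computable fun z : (((ℕ × ℕ) × List ℕ) × (ℕ × ℕ)) × ℕ => z.1.1.1.2.testBit z.2 :=
    computable_testBit.comp (g := fun z : (((ℕ × ℕ) × List ℕ) × (ℕ × ℕ)) × ℕ =>
      (z.1.1.1.2, z.2)) ((Computable.snd.comp (Computable.fst.comp
        (Computable.fst.comp Computable.fst))).pair Computable.snd)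
  have hdbl : Computable fun z : (((ℕ × ℕ) × List ℕ) × (ℕ × ℕ)) × ℕ => 2 * z.2 :=
    (Primrec.nat_mul.comp (Primrec.const 2) Primrec.snd).to_comp
  have hdbl1 : Computable fun z : (((ℕ × ℕ) × List ℕ) × (ℕ × ℕ)) × ℕ => 2 * z.2 + 1 :=
    Computable.succ.comp hdbl
  have hL : Computable fun z : (((ℕ × ℕ) × List ℕ) × (ℕ × ℕ)) × ℕ => z.1.1.2 :=
    Computable.snd.comp (Computable.fst.comp Computable.fst)
  have hnv : Computable fun z : (((ℕ × ℕ) × List ℕ) × (ℕ × ℕ)) × ℕ => z.1.2 :=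
    Computable.snd.comp Computable.fst
  refine re_and ?_ (re_or (re_and ?_ ?_) (re_and ?_ ?_))
  · exact re_of_primrec (Primrec.nat_lt.comp Primrec.snd (Primrec.fst.comp (Primrec.fst.comp
      (Primrec.fst.comp Primrec.fst))))
  · refine (re_of_computable (Primrec.not.to_comp.comp hbit)).of_eq fun z => ?_
    cases z.1.1.1.2.testBit z.2 <;> simp
  · exact re_comp (re_GG g) (g := fun z : (((ℕ × ℕ) × List ℕ) × (ℕ × ℕ)) × ℕ =>
      ((2 * z.2, z.1.1.2), z.1.2)) ((hdbl.pair hL).pair hnv)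
  · exact re_of_computable hbit
  · exact re_comp (re_GG g) (g := fun z : (((ℕ × ℕ) × List ℕ) × (ℕ × ℕ)) × ℕ =>
      ((2 * z.2 + 1, z.1.1.2), z.1.2)) ((hdbl1.pair hL).pair hnv)

theorem re_GQ (g d : Code) (n0 v0 : ℕ) (b : Bool) :
    REPred fun x : (((ℕ × ℕ) × List ℕ) × ℕ) × ℕ =>
      GQ g d n0 v0 b x.1.1.1.1 x.1.1.1.2 (fun y => y ∈ x.1.1.2) x.1.2 x.2 := by
  unfold GQ
  refine re_and (re_and ?_ ?_) ?_
  · exact re_of_primrec (Primrec.nat_le.comp (Primrec.const n0) (Primrec.snd.comp Primrec.fst))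
  · refine re_ball (p := fun z : ((((ℕ × ℕ) × List ℕ) × ℕ) × ℕ) × ℕ =>
      z.1.2.testBit z.2 = v0.testBit z.2) ?_ (g := fun _ => n0) (Computable.const n0)
    have h1 : Computable fun z : ((((ℕ × ℕ) × List ℕ) × ℕ) × ℕ) × ℕ => z.1.2.testBit z.2 :=
      computable_testBit.comp (g := fun z : ((((ℕ × ℕ) × List ℕ) × ℕ) × ℕ) × ℕ => (z.1.2, z.2))
        ((Computable.snd.comp Computable.fst).pair Computable.snd)
    have h2 : Computable fun z : ((((ℕ × ℕ) × List ℕ) × ℕ) × ℕ) × ℕ => v0.testBit z.2 :=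
      computable_testBit.comp (g := fun z : ((((ℕ × ℕ) × List ℕ) × ℕ) × ℕ) × ℕ => (v0, z.2))
        ((Computable.const v0).pair Computable.snd)
    have h3 : Computable₂ fun (a b : Bool) => decide (a = b) := Primrec.eq.decide.to_comp
    refine (re_of_computable (h3.comp h1 h2)).of_eq fun z => ?_
    simp
  · refine re_ball (p := fun z : ((((ℕ × ℕ) × List ℕ) × ℕ) × ℕ) × ℕ =>
      (decB d z.1.1.1.1.1 z.1.1.1.1.2 z.2 = b ∨
        GInc g z.1.1.1.1.2 z.2 (fun y => y ∈ z.1.1.1.2) z.1.1.2 z.1.2)) ?_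
      (g := fun x : (((ℕ × ℕ) × List ℕ) × ℕ) × ℕ => 2 ^ x.1.1.1.2) ?_
    · refine re_or ?_ ?_
      · have h1 : Computable fun z : ((((ℕ × ℕ) × List ℕ) × ℕ) × ℕ) × ℕ =>
            decB d z.1.1.1.1.1 z.1.1.1.1.2 z.2 :=
          (computable_decB d).comp (g := fun z : ((((ℕ × ℕ) × List ℕ) × ℕ) × ℕ) × ℕ =>
            (z.1.1.1.1, z.2))
            ((Computable.fst.comp (Computable.fst.comp (Computable.fst.comp
              Computable.fst))).pair Computable.snd)
        have h3 : Computable₂ fun (a b : Bool) => decide (a = b) := Primrec.eq.decide.to_comp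
        refine (re_of_computable (h3.comp h1 (Computable.const b))).of_eq fun z => ?_
        simp
      · exact re_comp (re_GInc g) (g := fun z : ((((ℕ × ℕ) × List ℕ) × ℕ) × ℕ) × ℕ =>
          (((z.1.1.1.1.2, z.2), z.1.1.1.2), (z.1.1.2, z.1.2)))
          ((((Computable.snd.comp (Computable.fst.comp (Computable.fst.comp (Computable.fst.comp
            Computable.fst)))).pair Computable.snd).pair
            (Computable.snd.comp (Computable.fst.comp (Computable.fst.comp Computable.fst)))).pair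
            ((Computable.snd.comp (Computable.fst.comp Computable.fst)).pair
              (Computable.snd.comp Computable.fst)))
    · exact primrec_pow.to_comp.comp (Computable.const 2)
        (Computable.snd.comp (Computable.fst.comp (Computable.fst.comp Computable.fst)))

theorem re_GPhi (g d : Code) (n0 v0 : ℕ) (b : Bool) :
    REPred fun x : (ℕ × ℕ) × List ℕ => GPhi g d n0 v0 b x.1.1 x.1.2 (fun y => y ∈ x.2) := by
  classical
  unfold GPhi
  refine re_ex (p := fun z : ((ℕ × ℕ) × List ℕ) × ℕ => 2 ^ (z.2 + 1) / (3 * 2 ^ n0) <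
    ((Finset.range (2 ^ z.2)).filter
      (fun v => GQ g d n0 v0 b z.1.1.1 z.1.1.2 (fun y => y ∈ z.1.2) z.2 v)).card) ?_
  refine re_card (re_GQ g d n0 v0 b) (g := fun z : ((ℕ × ℕ) × List ℕ) × ℕ => 2 ^ z.2)
    (t := fun z : ((ℕ × ℕ) × List ℕ) × ℕ => 2 ^ (z.2 + 1) / (3 * 2 ^ n0)) ?_ ?_
  · exact primrec_pow.to_comp.comp (Computable.const 2) Computable.snd
  · exact (Primrec.nat_div.comp (primrec_pow.comp (Primrec.const 2)
      (Primrec.succ.comp Primrec.snd)) (Primrec.const (3 * 2 ^ n0))).to_comp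

open MeasureTheory
open scoped ENNReal

theorem exists_good {A : Set ℕ} (hA : AlmostTotal A) : ∃ g d : Code, mu (Good A g d) ≠ 0 := by
  by_contra hcon
  push Not at hcon
  have h1 : (Set.univ : Set (ℕ → Bool)) ⊆ {C | EnumRed (hat C) A} ∪
      ⋃ p : Code × Code, Good A p.1 p.2 := by
    intro C _
    rcases almostTotal_cases hA C with h | ⟨Z, h2, h3⟩
    · exact Or.inl h
    · obtain ⟨g, hg⟩ := enumRed_code h2
      obtain ⟨d, hd⟩ := enumRed_code h3
      exact Or.inr (Set.mem_iUnion.2 ⟨(g, d), Z, hg, hd⟩)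
  have h2 : mu (Set.univ : Set (ℕ → Bool)) = 0 := by
    refine measure_mono_null h1 (measure_union_null ((countable_below A).measure_zero mu) ?_)
    exact measure_iUnion_null fun p => hcon p.1 p.2
  rw [measure_univ] at h2
  exact one_ne_zero h2

theorem exists_baseReg {A : Set ℕ} (hA : AlmostTotal A) : ∃ r n, BaseReg A r n := by
  obtain ⟨g, d, hgd⟩ := exists_good hA
  obtain ⟨n0, v0, -, hG⟩ := exists_density hgd
  obtain ⟨r, hr, hr'⟩ := ev_smn (p := fun (x : ℕ × ℕ) (L : List ℕ) =>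
    GPhi g d n0 v0 true x.1 x.2 (fun y => y ∈ L)) (re_GPhi g d n0 v0 true)
  obtain ⟨n, hn, hn'⟩ := ev_smn (p := fun (x : ℕ × ℕ) (L : List ℕ) =>
    GPhi g d n0 v0 false x.1 x.2 (fun y => y ∈ L)) (re_GPhi g d n0 v0 false)
  have er : ∀ a s, Ev (r (a, s)) A ↔ GPhi g d n0 v0 true a s (fun x => x ∈ A) := fun a s =>
    (hr' (a, s) A).trans (ho_cont (cont_GPhi g d n0 v0 true a s) A)
  have en : ∀ a s, Ev (n (a, s)) A ↔ GPhi g d n0 v0 false a s (fun x => x ∈ A) := fun a s =>
    (hn' (a, s) A).trans (ho_cont (cont_GPhi g d n0 v0 false a s) A)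
  refine ⟨r, n, hr, hn, ?_, ?_, ?_⟩
  · rintro a s ⟨h1, h2⟩
    exact GPhi_excl hG ((er a s).1 h1) ((en a s).1 h2)
  · intro a ha s
    exact (en a s).2 (GPhi_neg hG ha s)
  · intro a ha
    obtain ⟨s, hs⟩ := GPhi_pos hG ha
    exact ⟨s, (er a s).2 hs⟩

/-- every almost total enumeration degree is graph-cototal -/
theorem graphCototal_of_almostTotal {A : Set ℕ} (hA : AlmostTotal A) : GraphCototal A := by
  obtain ⟨r, n, h⟩ := exists_baseReg hA
  exact graphCototal_of_baseReg h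

end Helper82Enum
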